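import Pool.Agent.H23R2.Key

/-!
# Divisibility of the off-identity part of the pairing by every good prime
-/

set_option autoImplicit false
set_option linter.unusedSectionVars false

namespace Pool.Agent.H23R2

open Finset
open scoped Classical

/-- the two conditions on the odd prime `p` -/
structure GoodPrime (Γ : Type*) [Group Γ] (p : ℕ) : Prop where
  prime : p.Prime
  odd : p ≠ 2
  inj : ∀ x y : Γ, x ^ p = y ^ p → x = y
  div : ∀ g : Γ, g ≠ 1 → ∃ k : ℕ, ∀ x : Γ, x ^ (p ^ k) ≠ g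

section root

variable {Γ : Type*} [Group Γ] {p : ℕ} {M : Type*} [AddCommGroup M]

lemma pow_inj (hinj : ∀ x y : Γ, x ^ p = y ^ p → x = y) (k : ℕ) :
    ∀ x y : Γ, x ^ (p ^ k) = y ^ (p ^ k) → x = y := by
  induction k with
  | zero => intro x y h; simpa using h
  | succ k ih =>
    intro x y h
    rw [pow_succ, pow_mul, pow_mul] at h
    exact ih _ _ (hinj _ _ h)

/-- the cocycle transported along the `p^k`-th power map -/
noncomputable def rootF (p : ℕ) (F : Γ → Γ → M) (k : ℕ) (w x : Γ) : M :=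
  if h : ∃ y : Γ, y ^ (p ^ k) = w then F (Classical.choose h) x else 0

lemma rootF_pos (hinj : ∀ x y : Γ, x ^ p = y ^ p → x = y) (F : Γ → Γ → M) (k : ℕ)
    (y w x : Γ) (hy : y ^ (p ^ k) = w) : rootF p F k w x = F y x := by
  have h : ∃ y : Γ, y ^ (p ^ k) = w := ⟨y, hy⟩
  unfold rootF
  rw [dif_pos h]
  have := Classical.choose_spec h
  rw [pow_inj hinj k _ _ (this.trans hy.symm)]

lemma rootF_neg (F : Γ → Γ → M) (k : ℕ)
    (w x : Γ) (h : ¬ ∃ y : Γ, y ^ (p ^ k) = w) : rootF p F k w x = 0 := by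
  unfold rootF
  rw [dif_neg h]

lemma conj_pow' (x y : Γ) (m : ℕ) : (x⁻¹ * y * x) ^ m = x⁻¹ * y ^ m * x := by
  have := conj_pow (i := m) (a := x⁻¹) (b := y)
  rwa [inv_inv] at this

lemma rootF_coc (hinj : ∀ x y : Γ, x ^ p = y ^ p → x = y) {F : Γ → Γ → M} (hF : IsCoc F)
    (k : ℕ) : IsCoc (rootF p F k) := by
  intro w x y
  by_cases h : ∃ z : Γ, z ^ (p ^ k) = w
  · obtain ⟨z, hz⟩ := h
    rw [rootF_pos hinj F k z w _ hz, rootF_pos hinj F k z w _ hz,
      rootF_pos hinj F k (x⁻¹ * z * x) (x⁻¹ * w * x) _ (by rw [conj_pow', hz])]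
    exact hF z x y
  · have h' : ¬ ∃ z : Γ, z ^ (p ^ k) = x⁻¹ * w * x := by
      rintro ⟨z, hz⟩
      apply h
      refine ⟨x * z * x⁻¹, ?_⟩
      rw [conj_pow, hz]
      group
    rw [rootF_neg F k _ _ h, rootF_neg F k _ _ h, rootF_neg F k _ _ h', add_zero]

lemma rootF_succ_pow (hinj : ∀ x y : Γ, x ^ p = y ^ p → x = y) (F : Γ → Γ → M) (k : ℕ)
    (w x : Γ) : rootF p F (k + 1) (w ^ p) x = rootF p F k w x := by
  by_cases h : ∃ z : Γ, z ^ (p ^ k) = w
  · obtain ⟨z, hz⟩ := h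
    rw [rootF_pos hinj F k z w _ hz,
      rootF_pos hinj F (k + 1) z (w ^ p) _ (by rw [pow_succ, pow_mul, hz])]
  · have h' : ¬ ∃ z : Γ, z ^ (p ^ (k + 1)) = w ^ p := by
      rintro ⟨z, hz⟩
      apply h
      refine ⟨z, hinj _ _ ?_⟩
      rw [← pow_mul, ← pow_succ, hz]
    rw [rootF_neg F k _ _ h, rootF_neg F (k + 1) _ _ h']

lemma rootF_zero (F : Γ → Γ → M) (hinj : ∀ x y : Γ, x ^ p = y ^ p → x = y) (w x : Γ) :
    rootF p F 0 w x = F w x := rootF_pos hinj F 0 w w x (by simp)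

end root

section modp

variable {I : Type*} [Fintype I] {Γ : Type*} [Group Γ] {p : ℕ} [Fact p.Prime]
  {M : Type*} [AddCommGroup M] [Module (ZMod p) M] {S : Finset Γ}

lemma rootF_self (hinj : ∀ x y : Γ, x ^ p = y ^ p → x = y) {F : Γ → Γ → M} (hF : IsCoc F)
    (k : ℕ) (w : Γ) : rootF p F (k + 1) w w = 0 := by
  by_cases h : ∃ z : Γ, z ^ (p ^ (k + 1)) = w
  · obtain ⟨z, hz⟩ := h
    rw [rootF_pos hinj F (k + 1) z w _ hz, ← hz, hF.pow]
    rw [← Nat.cast_smul_eq_nsmul (ZMod p)]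
    simp
  · exact rootF_neg F (k + 1) _ _ h

lemma Dsum_root {A B : I → I → Γ → ZMod p} (h : InvPair A B S) (hp : p ≠ 2)
    (hinj : ∀ x y : Γ, x ^ p = y ^ p → x = y)
    {F : Γ → Γ → M} (hF : IsCoc F) (k : ℕ) :
    Dsum A B S (rootF p F k) = Dsum A B S F := by
  induction k with
  | zero =>
    congr 1
    funext w x
    exact rootF_zero F hinj w x
  | succ k ih =>
    rw [frobenius_relation h hp (rootF_coc hinj hF (k + 1)) (rootF_self hinj hF k)]
    rw [← ih]
    congr 1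
    funext w x
    exact rootF_succ_pow hinj F k w x

lemma not_root_mono (w : Γ) (k l : ℕ) (hkl : k ≤ l) (h : ∀ x : Γ, x ^ (p ^ k) ≠ w) :
    ∀ x : Γ, x ^ (p ^ l) ≠ w := by
  intro x hx
  obtain ⟨m, rfl⟩ := Nat.exists_eq_add_of_le hkl
  rw [pow_add, mul_comm, pow_mul] at hx
  exact h _ hx

/-- vanishing modulo `p` for cocycles which vanish on the identity class -/
theorem Dsum_off {A B : I → I → Γ → ZMod p} (h : InvPair A B S) (hg : GoodPrime Γ p)
    {F : Γ → Γ → M} (hF : IsCoc F) (h1 : ∀ x, F 1 x = 0) : Dsum A B S F = 0 := by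
  have hk : ∃ K : ℕ, ∀ y : Y I S, ((y.2.2.1 : Γ) * (y.2.2.2 : Γ)) ≠ 1 →
      ∀ x : Γ, x ^ (p ^ K) ≠ (y.2.2.1 : Γ) * (y.2.2.2 : Γ) := by
    have h2 : ∀ y : Y I S, ∃ k : ℕ, ((y.2.2.1 : Γ) * (y.2.2.2 : Γ)) ≠ 1 →
        ∀ x : Γ, x ^ (p ^ k) ≠ (y.2.2.1 : Γ) * (y.2.2.2 : Γ) := by
      intro y
      by_cases hy : ((y.2.2.1 : Γ) * (y.2.2.2 : Γ)) = 1
      · exact ⟨0, fun hh => absurd hy hh⟩
      · obtain ⟨k, hk⟩ := hg.div _ hy
        exact ⟨k, fun _ => hk⟩
    choose kf hkf using h2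
    refine ⟨Finset.univ.sup kf, ?_⟩
    intro y hy
    exact not_root_mono _ (kf y) _ (Finset.le_sup (Finset.mem_univ y)) (hkf y hy)
  obtain ⟨K, hK⟩ := hk
  rw [← Dsum_root h hg.odd hg.inj hF K]
  unfold Dsum
  apply Finset.sum_eq_zero
  intro y _
  by_cases hy : ((y.2.2.1 : Γ) * (y.2.2.2 : Γ)) = 1
  · rw [rootF_pos hg.inj F K 1 _ _ (by rw [one_pow, hy]), h1, smul_zero]
  · rw [rootF_neg F K _ _ (by rintro ⟨z, hz⟩; exact hK y hy z hz), smul_zero]

end modp

section integral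

variable {I : Type*} [Fintype I] {Γ : Type*} [Group Γ]
  {M : Type*} [AddCommGroup M] {S : Finset Γ}

/-- the pairing with integral coefficients -/
def DsumZ (A B : I → I → Γ → ℤ) (S : Finset Γ) (F : Γ → Γ → M) : M :=
  ∑ y : Y I S, (A y.1 y.2.1 y.2.2.1 * B y.2.1 y.1 y.2.2.2) • F (y.2.2.1 * y.2.2.2) y.2.2.1

lemma InvPair.map {R R' : Type*} [CommRing R] [CommRing R'] (φ : R →+* R')
    {A B : I → I → Γ → R} (h : InvPair A B S) :
    InvPair (fun i j g => φ (A i j g)) (fun i j g => φ (B i j g)) S := by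
  constructor
  · intro i i' g
    have := congrArg φ (h.ab i i' g)
    simp only [map_sum, apply_ite φ, map_mul, map_zero, map_one] at this
    exact this
  · intro i i' g
    have := congrArg φ (h.ba i i' g)
    simp only [map_sum, apply_ite φ, map_mul, map_zero, map_one] at this
    exact this

theorem DsumZ_off {A B : I → I → Γ → ℤ} (h : InvPair A B S) {p : ℕ} (hg : GoodPrime Γ p)
    {F : Γ → Γ → M} (hF : IsCoc F) (h1 : ∀ x, F 1 x = 0) : ∃ m : M, DsumZ A B S F = p • m := by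
  haveI : Fact p.Prime := ⟨hg.prime⟩
  let N : AddSubgroup M := (DistribMulAction.toAddMonoidHom M (p : ℤ)).range
  have hN : ∀ x : M ⧸ N, p • x = 0 := by
    intro x
    obtain ⟨m, rfl⟩ := QuotientAddGroup.mk_surjective x
    rw [← QuotientAddGroup.mk_nsmul, QuotientAddGroup.eq_zero_iff]
    exact ⟨m, by simp⟩
  letI : Module (ZMod p) (M ⧸ N) := AddCommGroup.zmodModule hN
  have h2 := Dsum_off (h.map (Int.castRingHom (ZMod p))) hg
    (F := fun w x => (QuotientAddGroup.mk (F w x) : M ⧸ N))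
    (by
      intro w x y
      show (QuotientAddGroup.mk (F w (x * y)) : M ⧸ N) = _
      rw [hF, QuotientAddGroup.mk_add])
    (by intro x; rw [h1]; rfl)
  have h3 : (QuotientAddGroup.mk (DsumZ A B S F) : M ⧸ N) = 0 := by
    rw [← h2]
    unfold DsumZ Dsum
    rw [← QuotientAddGroup.mk'_apply N, map_sum]
    apply Finset.sum_congr rfl
    intro y _
    rw [map_zsmul, ← Int.cast_smul_eq_zsmul (ZMod p)]
    simp
  rw [QuotientAddGroup.eq_zero_iff] at h3
  obtain ⟨m, hm⟩ := h3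
  exact ⟨m, by rw [← hm]; simp⟩

/-- the exponent sum element -/
noncomputable def gam (A B : I → I → Γ → ℤ) (S : Finset Γ) : Γ :=
  ((Finset.univ : Finset (Y I S)).toList.map (fun y =>
    if (y.2.2.1 : Γ) * y.2.2.2 = 1 then
      (y.2.2.1 : Γ) ^ (A y.1 y.2.1 y.2.2.1 * B y.2.1 y.1 y.2.2.2) else 1)).prod

lemma coc_one_hom {F : Γ → Γ → M} (hF : IsCoc F) (x y : Γ) : F 1 (x * y) = F 1 x + F 1 y := by
  rw [hF]; simp

/-- the homomorphism given by the identity class -/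
def oneHom {F : Γ → Γ → M} (hF : IsCoc F) : Γ →* Multiplicative M where
  toFun x := Multiplicative.ofAdd (F 1 x)
  map_one' := by rw [hF.one]; rfl
  map_mul' x y := by rw [coc_one_hom hF]; rfl

lemma oneHom_gam {F : Γ → Γ → M} (hF : IsCoc F) (A B : I → I → Γ → ℤ) (S : Finset Γ) :
    F 1 (gam A B S) = ∑ y : Y I S, (A y.1 y.2.1 y.2.2.1 * B y.2.1 y.1 y.2.2.2) •
      (if (y.2.2.1 : Γ) * y.2.2.2 = 1 then F 1 y.2.2.1 else 0) := by
  have h : Multiplicative.ofAdd (F 1 (gam A B S)) = oneHom hF (gam A B S) := rfl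
  apply Multiplicative.ofAdd.injective
  rw [h, gam, map_list_prod, List.map_map]
  rw [ofAdd_sum, ← Finset.prod_map_toList]
  congr 1
  apply List.map_congr_left
  intro y _
  simp only [Function.comp]
  split_ifs with hy
  · rw [map_zpow, ofAdd_zsmul]; rfl
  · rw [map_one, smul_zero]; rfl

/-- **main statement over the integers** -/
theorem DsumZ_main {A B : I → I → Γ → ℤ} (h : InvPair A B S) {p : ℕ} (hg : GoodPrime Γ p)
    {F : Γ → Γ → M} (hF : IsCoc F) : ∃ m : M, DsumZ A B S F = F 1 (gam A B S) + p • m := by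
  let F' : Γ → Γ → M := fun w x => if w = 1 then 0 else F w x
  have hF' : IsCoc F' := by
    intro w x y
    by_cases hw : w = 1
    · subst hw; simp [F']
    · have : x⁻¹ * w * x ≠ 1 := by
        intro hc
        apply hw
        have : w = x * (x⁻¹ * w * x) * x⁻¹ := by group
        rw [this, hc]; simp
      simp only [F', if_neg hw, if_neg this]
      exact hF w x y
  obtain ⟨m, hm⟩ := DsumZ_off h hg hF' (by intro x; simp [F'])
  refine ⟨m, ?_⟩
  rw [← hm, oneHom_gam hF]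
  unfold DsumZ
  rw [← Finset.sum_add_distrib]
  apply Finset.sum_congr rfl
  intro y _
  rw [← smul_add]
  congr 1
  simp only [F']
  split_ifs with hy
  · rw [hy]; simp
  · simp

end integral

end Pool.Agent.H23R2
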