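import Pool.Agent.H23R2.Fin
import Pool.Agent.H23R2.Root

/-!
# Good primes of finitely generated torsion-free linear groups in characteristic zero
-/

set_option autoImplicit false
set_option linter.unusedSectionVars false
set_option linter.style.haveILetI false

namespace Pool.Agent.H23R2

open Algebra

universe u v

/-- a field which is finitely generated as an abelian group is finite of prime characteristic -/
theorem finite_field_of_fg (F : Type u) [Field F] [Module.Finite ℤ F] :
    ∃ q : ℕ, q.Prime ∧ CharP F q ∧ Finite F := by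
  obtain ⟨q, hq⟩ := CharP.exists F
  rcases CharP.char_is_prime_or_zero F q with hp | hp
  · haveI : Fact q.Prime := ⟨hp⟩
    let _ : Algebra (ZMod q) F := ZMod.algebra F q
    haveI : Module.Finite (ZMod q) F := Module.Finite.of_restrictScalars_finite ℤ (ZMod q) F
    exact ⟨q, hp, hq, Module.finite_of_finite (ZMod q)⟩
  · subst hp
    exfalso
    haveI : CharZero F := CharP.charP_to_charZero F
    haveI : Algebra.IsIntegral ℤ F := Algebra.IsIntegral.of_finite ℤ F
    have h1 : IsIntegral ℤ (algebraMap ℚ F (2 : ℚ)⁻¹) := Algebra.IsIntegral.isIntegral _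
    have h2 : IsIntegral ℤ ((2 : ℚ)⁻¹) :=
      (isIntegral_algebraMap_iff (algebraMap ℚ F).injective).1 h1
    obtain ⟨z, hz⟩ := IsIntegrallyClosed.isIntegral_iff.1 h2
    have hz' : (z : ℚ) = (2 : ℚ)⁻¹ := by simpa using hz
    have h3 : (2 * z : ℤ) = 1 := by
      have : ((2 * z : ℤ) : ℚ) = 1 := by
        push_cast
        rw [hz']; norm_num
      exact_mod_cast this
    omega

instance jacobson_int : IsJacobsonRing ℤ := by
  rw [isJacobsonRing_iff_prime_eq]
  intro P hP
  by_cases h : P = ⊥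
  · subst h
    rw [eq_bot_iff]
    intro x hx
    rw [Ideal.mem_jacobson_bot] at hx
    have h1 := hx x
    rw [Int.isUnit_iff] at h1
    rw [Ideal.mem_bot]
    rcases h1 with h1 | h1
    · have : x * x = 0 := by linarith
      exact mul_self_eq_zero.1 this
    · nlinarith [mul_self_nonneg x]
  · haveI : P.IsMaximal := hP.isMaximal h
    exact Ideal.jacobson_eq_self_of_isMaximal

/-- residue fields of finitely generated rings -/
theorem residue_finite (R : Type u) [CommRing R] [Algebra.FiniteType ℤ R] (m : Ideal R)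
    [hm : m.IsMaximal] : ∃ q : ℕ, q.Prime ∧ ((q : R) ∈ m) ∧ Finite (R ⧸ m) := by
  let i1 : Field (R ⧸ m) := Ideal.Quotient.field m
  have h2 : Module.Finite ℤ (R ⧸ m) :=
    @finite_of_finite_type_of_isJacobsonRing ℤ (R ⧸ m) _ i1 (Ideal.Quotient.algebra ℤ (I := m)) _
      (inferInstance)
  obtain ⟨q, hq, hc, hf⟩ := finite_field_of_fg (R ⧸ m)
  refine ⟨q, hq, ?_, hf⟩
  rw [← Ideal.Quotient.eq_zero_iff_mem, map_natCast]
  exact CharP.cast_eq_zero _ q

section congr

variable {R : Type u} [CommRing R] {n : Type v} [Fintype n] [DecidableEq n]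

lemma one_add_pow {S : Type*} [Ring S] (Z : S) (hZ : Z * Z = 0) (m : ℕ) :
    (1 + Z) ^ m = 1 + m • Z := by
  induction m with
  | zero => simp
  | succ m ih =>
    rw [pow_succ, ih]
    have : (m • Z) * Z = 0 := by rw [smul_mul_assoc, hZ, smul_zero]
    rw [mul_add, mul_one, add_mul, one_mul, this, add_zero, succ_nsmul]
    abel

/-- congruence step -/
lemma congr_step (m : Ideal R) (q : ℕ) (hq : (q : R) ∈ m) (j : ℕ) (hj : 1 ≤ j)
    (X : Matrix n n R) (hX : ∀ a b, (X - 1) a b ∈ m ^ j) :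
    ∀ a b, (X ^ q - 1) a b ∈ m ^ (j + 1) := by
  let f := Ideal.Quotient.mk (m ^ (j + 1))
  have hZ : (X - 1).map f * (X - 1).map f = 0 := by
    ext a b
    rw [Matrix.mul_apply]
    apply Finset.sum_eq_zero
    intro c _
    rw [Matrix.map_apply, Matrix.map_apply, ← map_mul]
    rw [Ideal.Quotient.eq_zero_iff_mem]
    have h1 : (X - 1) a c * (X - 1) c b ∈ m ^ j * m ^ j := Ideal.mul_mem_mul (hX a c) (hX c b)
    rw [← pow_add] at h1
    exact Ideal.pow_le_pow_right (by omega) h1
  have hq' : q • ((X - 1).map f) = 0 := by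
    ext a b
    rw [Matrix.smul_apply, Matrix.map_apply, nsmul_eq_mul, ← map_natCast f, ← map_mul]
    rw [Matrix.zero_apply, Ideal.Quotient.eq_zero_iff_mem]
    rw [pow_succ']
    exact Ideal.mul_mem_mul hq (hX a b)
  have h1 : (f.mapMatrix X) = 1 + (X - 1).map f := by
    have : (X - 1).map f = f.mapMatrix (X - 1) := rfl
    rw [this, map_sub, map_one]
    abel
  have h2 : f.mapMatrix (X ^ q - 1) = 0 := by
    rw [map_sub, map_pow, h1, one_add_pow _ hZ, hq', map_one]
    abel
  intro a b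
  have h3 := congrFun (congrFun h2 a) b
  rw [RingHom.mapMatrix_apply, Matrix.map_apply, Matrix.zero_apply] at h3
  exact Ideal.Quotient.eq_zero_iff_mem.1 h3

/-- a uniform exponent modulo powers of a maximal ideal with finite residue field -/
lemma exists_exponent (m : Ideal R) (q : ℕ) (hq : (q : R) ∈ m) (hf : Finite (R ⧸ m)) :
    ∃ E : ℕ, 0 < E ∧ ∀ (X : (Matrix n n R)ˣ) (j : ℕ) (a b : n),
      ((X : Matrix n n R) ^ (E * q ^ j) - 1) a b ∈ m ^ (j + 1) := by
  classical
  let f := Ideal.Quotient.mk m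
  haveI : Finite (Matrix n n (R ⧸ m))ˣ := inferInstance
  refine ⟨Nat.card (Matrix n n (R ⧸ m))ˣ, Nat.card_pos, ?_⟩
  intro X j
  induction j with
  | zero =>
    intro a b
    have h1 : (Units.map (f.mapMatrix (m := n)).toMonoidHom X) ^
        (Nat.card (Matrix n n (R ⧸ m))ˣ) = 1 := pow_card_eq_one'
    have h2 := congrArg Units.val h1
    rw [Units.val_pow_eq_pow_val, Units.val_one] at h2
    have h3 : f.mapMatrix ((X : Matrix n n R) ^ (Nat.card (Matrix n n (R ⧸ m))ˣ) - 1) = 0 := by
      rw [map_sub, map_pow, map_one]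
      rw [sub_eq_zero]
      exact h2
    have h4 := congrFun (congrFun h3 a) b
    rw [RingHom.mapMatrix_apply, Matrix.map_apply, Matrix.zero_apply] at h4
    rw [pow_zero, mul_one, zero_add, pow_one]
    exact Ideal.Quotient.eq_zero_iff_mem.1 h4
  | succ j ih =>
    intro a b
    have h1 : (X : Matrix n n R) ^ (Nat.card (Matrix n n (R ⧸ m))ˣ * q ^ (j + 1)) =
        ((X : Matrix n n R) ^ (Nat.card (Matrix n n (R ⧸ m))ˣ * q ^ j)) ^ q := by
      rw [← pow_mul, pow_succ, mul_assoc]
    rw [h1]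
    exact congr_step m q hq (j + 1) (by omega) _ ih a b

end congr

section group

variable {R : Type u} [CommRing R] [IsDomain R] [IsNoetherianRing R]
  {n : Type v} [Fintype n] [DecidableEq n] {H : Type*} [Group H]

lemma eq_of_congr (m : Ideal R) (hm : m ≠ ⊤) (X Y : Matrix n n R)
    (h : ∀ j a b, (X - Y) a b ∈ m ^ (j + 1)) : X = Y := by
  ext a b
  rw [← sub_eq_zero]
  have h1 : (X - Y) a b ∈ ⨅ i, m ^ i := by
    rw [Ideal.mem_iInf]
    intro i
    cases i with
    | zero => simp
    | succ j => exact h j a b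
  rw [Ideal.iInf_pow_eq_bot_of_isDomain m hm] at h1
  simpa using h1

lemma mapMatrix_eq_one_iff (m : Ideal R) (X : Matrix n n R) :
    (Ideal.Quotient.mk m).mapMatrix X = 1 ↔ ∀ a b, (X - 1) a b ∈ m := by
  rw [← sub_eq_zero, ← map_one (Ideal.Quotient.mk m).mapMatrix, ← map_sub]
  constructor
  · intro h a b
    have h4 := congrFun (congrFun h a) b
    rw [RingHom.mapMatrix_apply, Matrix.map_apply, Matrix.zero_apply] at h4
    exact Ideal.Quotient.eq_zero_iff_mem.1 h4
  · intro h
    ext a b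
    rw [RingHom.mapMatrix_apply, Matrix.map_apply, Matrix.zero_apply]
    exact Ideal.Quotient.eq_zero_iff_mem.2 (h a b)

lemma mapMatrix_eq_iff (m : Ideal R) (X Y : Matrix n n R) :
    (Ideal.Quotient.mk m).mapMatrix X = (Ideal.Quotient.mk m).mapMatrix Y ↔
      ∀ a b, (X - Y) a b ∈ m := by
  rw [← sub_eq_zero, ← map_sub]
  constructor
  · intro h a b
    have h4 := congrFun (congrFun h a) b
    rw [RingHom.mapMatrix_apply, Matrix.map_apply, Matrix.zero_apply] at h4
    exact Ideal.Quotient.eq_zero_iff_mem.1 h4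
  · intro h
    ext a b
    rw [RingHom.mapMatrix_apply, Matrix.map_apply, Matrix.zero_apply]
    exact Ideal.Quotient.eq_zero_iff_mem.2 (h a b)

/-- uniqueness of `p`-th roots -/
lemma roots_unique (ψ : H →* (Matrix n n R)ˣ) (hψ : Function.Injective ψ) (m : Ideal R)
    (hm : m ≠ ⊤) (q : ℕ) (E : ℕ)
    (hE : ∀ (X : (Matrix n n R)ˣ) (j : ℕ) (a b : n),
      ((X : Matrix n n R) ^ (E * q ^ j) - 1) a b ∈ m ^ (j + 1))
    (p : ℕ) (hpE : Nat.Coprime p (E * q)) (x y : H) (hxy : x ^ p = y ^ p) : x = y := by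
  apply hψ
  apply Units.ext
  apply eq_of_congr m hm
  intro j
  rw [← mapMatrix_eq_iff]
  set θ : H →* (Matrix n n (R ⧸ m ^ (j + 1)))ˣ :=
    (Units.map ((Ideal.Quotient.mk (m ^ (j + 1))).mapMatrix (m := n)).toMonoidHom).comp ψ with hθ
  have hθ1 : ∀ z : H, θ z ^ (E * q ^ j) = 1 := by
    intro z
    apply Units.ext
    rw [Units.val_pow_eq_pow_val, Units.val_one]
    show ((Ideal.Quotient.mk (m ^ (j + 1))).mapMatrix (ψ z : Matrix n n R)) ^ (E * q ^ j) = 1
    rw [← map_pow]
    exact (mapMatrix_eq_one_iff _ _).2 (hE (ψ z) j)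
  have hcop : Nat.Coprime p (E * q ^ j) := by
    rw [Nat.coprime_mul_iff_right] at hpE ⊢
    exact ⟨hpE.1, hpE.2.pow_right j⟩
  have hbez : (1 : ℤ) = p * Nat.gcdA p (E * q ^ j) + (E * q ^ j : ℕ) * Nat.gcdB p (E * q ^ j) := by
    rw [← Nat.gcd_eq_gcd_ab, hcop.gcd_eq_one]; rfl
  have key : ∀ z : H, θ z = (θ (z ^ p)) ^ (Nat.gcdA p (E * q ^ j)) := by
    intro z
    conv_lhs => rw [← zpow_one (θ z), hbez, zpow_add, zpow_mul, zpow_mul, zpow_natCast,
      zpow_natCast, hθ1, one_zpow, mul_one, ← map_pow]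
  have h1 : θ x = θ y := by rw [key x, key y, hxy]
  exact congrArg Units.val h1

/-- no infinitely `p`-divisible elements -/
lemma not_div (htf : ∀ g : H, ∀ k : ℕ, 0 < k → g ^ k = 1 → g = 1)
    (ψ : H →* (Matrix n n R)ˣ) (hψ : Function.Injective ψ) (m : Ideal R)
    (hm : m ≠ ⊤) (p : ℕ) (E : ℕ) (hE0 : 0 < E)
    (hE : ∀ (X : (Matrix n n R)ˣ) (j : ℕ) (a b : n),
      ((X : Matrix n n R) ^ (E * p ^ j) - 1) a b ∈ m ^ (j + 1))
    (g : H) (hg : g ≠ 1) : ∃ k : ℕ, ∀ x : H, x ^ (p ^ k) ≠ g := by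
  by_contra hcon
  push Not at hcon
  apply hg
  apply htf g E hE0
  apply hψ
  rw [map_one]
  apply Units.ext
  rw [Units.val_one]
  apply eq_of_congr m hm
  intro j a b
  obtain ⟨x, hx⟩ := hcon j
  rw [← hx, ← pow_mul, mul_comm (p ^ j) E, map_pow, Units.val_pow_eq_pow_val]
  exact hE (ψ x) j a b

end group

section linear

variable {K : Type u} [Field K] [CharZero K] {N : ℕ} {H : Type v} [Group H]

/-- the entries of a finitely generated linear group lie in a finitely generated ring -/
lemma entries_mem (φ : H →* GL (Fin N) K) (T : Set H) (hT : Subgroup.closure T = ⊤)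
    (R : Subalgebra ℤ K)
    (h1 : ∀ t ∈ T, ∀ i j, (φ t).val i j ∈ R) (h2 : ∀ t ∈ T, ∀ i j, (φ t⁻¹).val i j ∈ R)
    (h : H) : ∀ i j, (φ h).val i j ∈ R := by
  have hmem : h ∈ Subgroup.closure T := by rw [hT]; trivial
  have hmul : ∀ x y : H, (∀ i j, (φ x).val i j ∈ R) → (∀ i j, (φ y).val i j ∈ R) →
      ∀ i j, (φ (x * y)).val i j ∈ R := by
    intro x y hx hy i j
    rw [map_mul, Units.val_mul, Matrix.mul_apply]
    exact R.sum_mem (fun k _ => R.mul_mem (hx i k) (hy k j))
  induction hmem using Subgroup.closure_induction_left with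
  | one =>
    intro i j
    rw [map_one, Units.val_one, Matrix.one_apply]
    split_ifs
    · exact R.one_mem
    · exact R.zero_mem
  | mul_left x hx y _ ih => exact hmul x y (h1 x hx) ih
  | inv_mul_cancel x hx y _ ih => exact hmul x⁻¹ y (h2 x hx) ih

/-- all but finitely many primes are good for a finitely generated torsion-free linear group -/
theorem finite_bad_primes [Group.FG H] (htf : ∀ g : H, ∀ k : ℕ, 0 < k → g ^ k = 1 → g = 1)
    (φ : H →* GL (Fin N) K) (hφ : Function.Injective φ) :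
    {p : ℕ | p.Prime ∧ ¬ GoodPrime H p}.Finite := by
  classical
  obtain ⟨T, hT⟩ := Group.fg_def.1 (inferInstance : Group.FG H)
  let s : Finset K := T.biUnion fun t => Finset.univ.biUnion fun i : Fin N =>
    Finset.univ.biUnion fun j : Fin N => {(φ t).val i j, (φ t⁻¹).val i j}
  let R : Subalgebra ℤ K := Algebra.adjoin ℤ (s : Set K)
  have hR : Algebra.FiniteType ℤ R := by
    rw [← Subalgebra.fg_iff_finiteType]
    exact ⟨s, rfl⟩
  have hN : IsNoetherianRing R := Algebra.FiniteType.isNoetherianRing ℤ R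
  have hent : ∀ h : H, ∀ i j, (φ h).val i j ∈ R := by
    apply entries_mem φ (T : Set H) hT R
    · intro t ht i j
      apply Algebra.subset_adjoin
      simp only [s, Finset.coe_biUnion, Set.mem_iUnion]
      exact ⟨t, ht, i, by simp, j, by simp, by simp⟩
    · intro t ht i j
      apply Algebra.subset_adjoin
      simp only [s, Finset.coe_biUnion, Set.mem_iUnion]
      exact ⟨t, ht, i, by simp, j, by simp, by simp⟩
  let ψ0 : H →* Matrix (Fin N) (Fin N) R :=
    { toFun := fun h => Matrix.of fun i j => ⟨(φ h).val i j, hent h i j⟩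
      map_one' := by
        ext i j
        simp only [Matrix.of_apply, map_one, Units.val_one, Matrix.one_apply]
        split_ifs <;> rfl
      map_mul' := by
        intro x y
        ext i j
        simp only [Matrix.of_apply, map_mul, Units.val_mul, Matrix.mul_apply]
        rw [AddSubmonoidClass.coe_finset_sum]
        rfl }
  let ψ : H →* (Matrix (Fin N) (Fin N) R)ˣ := ψ0.toHomUnits
  have hψ : Function.Injective ψ := by
    intro x y hxy
    apply hφ
    apply Units.ext
    ext i j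
    have h1 : (ψ x).val i j = (ψ y).val i j := by rw [hxy]
    exact congrArg Subtype.val h1
  obtain ⟨m, hm⟩ := Ideal.exists_maximal R
  obtain ⟨q, hq, hqm, hfin⟩ := residue_finite R m
  obtain ⟨E, hE0, hE⟩ := exists_exponent (n := Fin N) m q hqm hfin
  have hbad : ({p : ℕ | p.Prime ∧ ((p : K)⁻¹) ∈ Algebra.adjoin ℤ (s : Set K)} ∪
      ((2 * (E * q)).primeFactors : Set ℕ)).Finite :=
    (finite_inv_primes s).union (Finset.finite_toSet _)
  refine hbad.subset ?_
  rintro p ⟨hp, hpbad⟩
  by_contra hcon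
  apply hpbad
  simp only [Set.mem_union, Set.mem_setOf_eq, not_or, not_and, Finset.mem_coe,
    Nat.mem_primeFactors] at hcon
  obtain ⟨hc1, hc2⟩ := hcon
  have hc3 := hc1 hp
  have hne : 2 * (E * q) ≠ 0 := by
    have := hq.pos
    positivity
  have hnd : ¬ p ∣ 2 * (E * q) := fun hd => hc2 hp hd hne
  have hpE : Nat.Coprime p (E * q) := by
    rw [Nat.Prime.coprime_iff_not_dvd hp]
    intro hd
    exact hnd (Dvd.dvd.mul_left hd 2)
  have hp2 : p ≠ 2 := by
    rintro rfl
    exact hnd (dvd_mul_right 2 _)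
  -- `p` is not invertible in `R`
  have hpR : (p : R) ∈ nonunits R := by
    intro hu
    apply hc3
    obtain ⟨u, hu⟩ := hu
    have h1 : (p : R) * (u⁻¹ : Rˣ).val = 1 := by rw [← hu, Units.mul_inv]
    have h2 : (p : K) * ((u⁻¹ : Rˣ).val : K) = 1 := by
      have := congrArg Subtype.val h1
      simpa using this
    rw [inv_eq_of_mul_eq_one_right h2]
    exact ((u⁻¹ : Rˣ).val).2
  obtain ⟨m', hm', hpm'⟩ := exists_max_ideal_of_mem_nonunits hpR
  obtain ⟨q', _, _, hfin'⟩ := residue_finite R m'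
  obtain ⟨E', hE0', hE'⟩ := exists_exponent (n := Fin N) m' p hpm' hfin'
  exact
    { prime := hp
      odd := hp2
      inj := fun x y hxy => roots_unique ψ hψ m hm.ne_top q E hE p hpE x y hxy
      div := fun g hg => not_div htf ψ hψ m' hm'.ne_top p E' hE0' hE' g hg }

end linear

end Pool.Agent.H23R2
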