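import Pool.Agent.H23R2.Root

/-!
# From matrices over integral group rings to coefficient functions
-/

set_option autoImplicit false
set_option linter.unusedSectionVars false

namespace Pool.Agent.H23R2

open Finset
open scoped Classical

variable {I : Type*} [Fintype I] {Γ : Type*} [Group Γ] {M : Type*} [AddCommGroup M]

/-- the coefficient functions of a matrix over the integral group ring -/
def cf (A : Matrix I I (MonoidAlgebra ℤ Γ)) : I → I → Γ → ℤ := fun i j g => (A i j).coeff g

/-- a finite set containing the supports of all the entries -/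
noncomputable def supp (A : Matrix I I (MonoidAlgebra ℤ Γ)) : Finset Γ :=
  Finset.univ.biUnion fun i => Finset.univ.biUnion fun j => (A i j).coeff.support

lemma mem_supp (A : Matrix I I (MonoidAlgebra ℤ Γ)) (i j : I) (g : Γ)
    (h : (A i j).coeff g ≠ 0) : g ∈ supp A := by
  unfold supp
  simp only [Finset.mem_biUnion, Finset.mem_univ, true_and, Finsupp.mem_support_iff]
  exact ⟨i, j, h⟩

lemma mul_coeff_eq (x y : MonoidAlgebra ℤ Γ) (S : Finset Γ) (hx : ∀ g, x.coeff g ≠ 0 → g ∈ S)
    (hy : ∀ g, y.coeff g ≠ 0 → g ∈ S) (g : Γ) :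
    (x * y).coeff g = ∑ a ∈ S, ∑ b ∈ S, if a * b = g then x.coeff a * y.coeff b else 0 := by
  rw [MonoidAlgebra.coeff_mul]
  simp only [Finsupp.sum]
  rw [Finset.sum_subset (s₁ := x.coeff.support) (s₂ := S)]
  · apply Finset.sum_congr rfl
    intro a _
    rw [Finset.sum_subset (s₁ := y.coeff.support) (s₂ := S)]
    · intro b hb
      exact hy b (by simpa using hb)
    · intro b _ hb
      have : y.coeff b = 0 := by simpa using hb
      simp [this]
  · intro a ha
    exact hx a (by simpa using ha)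
  · intro a _ ha
    have : x.coeff a = 0 := by simpa using ha
    simp [this]

lemma coeff_sum' {J : Type*} (s : Finset J) (x : J → MonoidAlgebra ℤ Γ) (g : Γ) :
    (∑ j ∈ s, x j).coeff g = ∑ j ∈ s, (x j).coeff g := by
  induction s using Finset.induction_on with
  | empty => simp
  | insert a s ha ih => rw [Finset.sum_insert ha, Finset.sum_insert ha, MonoidAlgebra.coeff_add,
      Finsupp.add_apply, ih]

lemma one_coeff' (g : Γ) : (1 : MonoidAlgebra ℤ Γ).coeff g = if g = 1 then 1 else 0 := by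
  rw [MonoidAlgebra.one_def]
  simp [Finsupp.single_apply, eq_comm]

lemma invPair_half {A B : Matrix I I (MonoidAlgebra ℤ Γ)}
    (hAB : ∀ i i', ∑ j, A i j * B j i' = if i = i' then 1 else 0) (S : Finset Γ)
    (hA : ∀ i j g, (A i j).coeff g ≠ 0 → g ∈ S) (hB : ∀ i j g, (B i j).coeff g ≠ 0 → g ∈ S)
    (i i' : I) (g : Γ) :
    ∑ j, ∑ a ∈ S, ∑ b ∈ S, (if a * b = g then cf A i j a * cf B j i' b else 0)
    = if i = i' ∧ g = 1 then 1 else 0 := by
  have h := congrArg (fun X : MonoidAlgebra ℤ Γ => X.coeff g) (hAB i i')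
  simp only [coeff_sum'] at h
  have h2 : ∀ j, (A i j * B j i').coeff g =
      ∑ a ∈ S, ∑ b ∈ S, (if a * b = g then cf A i j a * cf B j i' b else 0) := by
    intro j
    exact mul_coeff_eq _ _ S (hA i j) (hB j i') g
  simp_rw [h2] at h
  rw [h]
  by_cases hi : i = i'
  · simp [hi, one_coeff']
  · simp [hi]

lemma invPair_units {n : ℕ} (A : (Matrix (Fin n) (Fin n) (MonoidAlgebra ℤ Γ))ˣ) :
    InvPair (cf A.val) (cf (A⁻¹).val) (supp A.val ∪ supp (A⁻¹).val) := by
  have hA : ∀ i j g, (A.val i j).coeff g ≠ 0 → g ∈ supp A.val ∪ supp (A⁻¹).val :=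
    fun i j g hg => Finset.mem_union_left _ (mem_supp _ i j g hg)
  have hB : ∀ i j g, ((A⁻¹).val i j).coeff g ≠ 0 → g ∈ supp A.val ∪ supp (A⁻¹).val :=
    fun i j g hg => Finset.mem_union_right _ (mem_supp _ i j g hg)
  constructor
  · refine fun i i' g => invPair_half (fun i i' => ?_) _ hA hB i i' g
    have := congrFun (congrFun A.mul_inv i) i'
    rw [Matrix.mul_apply, Matrix.one_apply] at this
    rw [this]
    congr 1
  · refine fun i i' g => invPair_half (fun i i' => ?_) _ hB hA i i' g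
    have := congrFun (congrFun A.inv_mul i) i'
    rw [Matrix.mul_apply, Matrix.one_apply] at this
    rw [this]
    congr 1

/-- the pairing of a function of two variables with two matrices -/
noncomputable def pairing {n : ℕ} (f : Γ → Γ → M)
    (B A : Matrix (Fin n) (Fin n) (MonoidAlgebra ℤ Γ)) : M :=
  ∑ i, ∑ j, (B i j).coeff.sum fun g b => (A j i).coeff.sum fun h a => (b * a) • f g h

lemma sum_Y_eq {R : Type*} [AddCommMonoid R] (S : Finset Γ) (f : I → I → Γ → Γ → R) :
    ∑ y : Y I S, f y.1 y.2.1 y.2.2.1 y.2.2.2 = ∑ i, ∑ j, ∑ a ∈ S, ∑ b ∈ S, f i j a b := by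
  rw [Fintype.sum_prod_type]
  apply Finset.sum_congr rfl
  intro i _
  rw [Fintype.sum_prod_type]
  apply Finset.sum_congr rfl
  intro j _
  rw [Fintype.sum_prod_type, ← Finset.sum_coe_sort S]
  apply Finset.sum_congr rfl
  intro a _
  rw [← Finset.sum_coe_sort S]

lemma pairing_eq {n : ℕ} (f : Γ → Γ → M) (B A : Matrix (Fin n) (Fin n) (MonoidAlgebra ℤ Γ))
    (S : Finset Γ) (hA : ∀ i j g, (A i j).coeff g ≠ 0 → g ∈ S)
    (hB : ∀ i j g, (B i j).coeff g ≠ 0 → g ∈ S) :
    pairing f B A = DsumZ (cf A) (cf B) S (fun w x => f (x⁻¹ * w) x) := by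
  unfold DsumZ
  rw [sum_Y_eq S (fun i j a b => (cf A i j a * cf B j i b) • f (a⁻¹ * (a * b)) a)]
  unfold pairing
  rw [Finset.sum_comm]
  apply Finset.sum_congr rfl
  intro i _
  apply Finset.sum_congr rfl
  intro j _
  rw [Finset.sum_comm]
  simp only [Finsupp.sum, cf]
  rw [Finset.sum_subset (s₁ := (B j i).coeff.support) (s₂ := S)]
  · apply Finset.sum_congr rfl
    intro b _
    rw [Finset.sum_subset (s₁ := (A i j).coeff.support) (s₂ := S)]
    · apply Finset.sum_congr rfl
      intro a _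
      rw [mul_comm ((B j i).coeff b), inv_mul_cancel_left]
    · intro a ha
      exact hA i j a (by simpa using ha)
    · intro a _ ha
      have : (A i j).coeff a = 0 := by simpa using ha
      simp [this]
  · intro b hb
    exact hB j i b (by simpa using hb)
  · intro b _ hb
    have : (B j i).coeff b = 0 := by simpa using hb
    simp [this]

/-- the Hochschild cocycle condition gives a conjugation cocycle -/
lemma isCoc_of_hochschild (f : Γ → Γ → M)
    (hf : ∀ x y z, f (x * y) z - f x (y * z) + f (z * x) y = 0) :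
    IsCoc (fun w x => f (x⁻¹ * w) x) := by
  intro w x y
  have h := hf (y⁻¹ * x⁻¹ * w) x y
  have e1 : y * (y⁻¹ * x⁻¹ * w) = x⁻¹ * w := by group
  rw [e1] at h
  have e2 : (x * y)⁻¹ * w = y⁻¹ * x⁻¹ * w := by group
  have e3 : y⁻¹ * (x⁻¹ * w * x) = y⁻¹ * x⁻¹ * w * x := by group
  show f ((x * y)⁻¹ * w) (x * y) = f (x⁻¹ * w) x + f (y⁻¹ * (x⁻¹ * w * x)) y
  rw [e2, e3]
  rw [← sub_eq_zero]
  rw [← neg_eq_zero, ← h]
  abel

end Pool.Agent.H23R2
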