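import Mathlib

/-!
# Derivations: Jacobi's formula and detection of transcendental elements
-/

set_option autoImplicit false
set_option linter.unusedSectionVars false
set_option linter.style.haveILetI false

namespace Pool.Agent.H23R2

open Polynomial

universe u

section jacobi

variable {L : Type u} [CommRing L] {m : Type*} [Fintype m] [DecidableEq m]

/-- the ring homomorphism into the dual numbers given by a derivation -/
def derHom (D : Derivation ℤ L L) : L →+* DualNumber L where
  toFun x := TrivSqZeroExt.inl x + TrivSqZeroExt.inr (D x)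
  map_one' := by simp
  map_zero' := by simp
  map_add' x y := by
    ext
    · simp
    · simp
  map_mul' x y := by
    ext
    · simp
    · simp [Derivation.leibniz, mul_comm]

lemma derHom_apply (D : Derivation ℤ L L) (x : L) :
    derHom D x = TrivSqZeroExt.inl x + TrivSqZeroExt.inr (D x) := rfl

/-- **Jacobi's formula** -/
theorem jacobi (D : Derivation ℤ L L) (X Y : Matrix m m L) (hXY : X * Y = 1) :
    D X.det = X.det * (Y * X.map D).trace := by
  let ι : L →+* DualNumber L := TrivSqZeroExt.inlHom L L
  let ε : DualNumber L := TrivSqZeroExt.inr 1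
  have hε : ε ^ 2 = 0 := by
    rw [pow_two]; exact TrivSqZeroExt.inr_mul_inr L 1 1
  have h1 : (derHom D).mapMatrix X = ι.mapMatrix X * (1 + ε • ι.mapMatrix (Y * X.map D)) := by
    rw [mul_add, mul_one, Matrix.mul_smul, ← map_mul, ← mul_assoc, hXY, one_mul]
    ext i j
    · simp [derHom_apply, ι, ε]
    · simp [derHom_apply, ι, ε]
  have h2 := congrArg Matrix.det h1
  rw [Matrix.det_mul, Matrix.det_one_add_smul, hε, mul_zero, add_zero, ← RingHom.map_det,
    ← RingHom.map_det] at h2
  have h3 : (ι.mapMatrix (Y * X.map D)).trace = ι (Y * X.map D).trace := by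
    rw [Matrix.trace, Matrix.trace, map_sum]
    rfl
  rw [h3] at h2
  have h4 := congrArg TrivSqZeroExt.snd h2
  simpa [derHom_apply, ι, ε] using h4

end jacobi

section exist

/-- field extensions in characteristic zero are formally smooth -/
theorem smooth_charZero (K L : Type*) [Field K] [Field L] [Algebra K L] [CharZero K] :
    Algebra.FormallySmooth K L := by
  obtain ⟨s, hs⟩ := exists_isTranscendenceBasis K L
  have h1 := hs.isAlgebraic_field
  have h2 : Algebra.IsSeparable (IntermediateField.adjoin K (Set.range ((↑) : s → L))) L := by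
    infer_instance
  exact .of_algebraicIndependent_of_isSeparable hs.1

/-- a lifting statement: a ring homomorphism from a subfield into the dual numbers lifting the
inclusion extends to the whole field -/
theorem exists_lift {K : Type*} {L : Type*} [Field K] [Field L] [CharZero K] (g0 : K →+* L)
    (B : Type*) [CommRing B] (π : B →+* L) (hπ : Function.Surjective π)
    (hsq : IsNilpotent (RingHom.ker π)) (θ : K →+* B) (hθ : π.comp θ = g0) :
    ∃ Φ : L →+* B, (∀ x, π (Φ x) = x) ∧ ∀ k, Φ (g0 k) = θ k := by
  let _ : Algebra K L := g0.toAlgebra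
  let _ : Algebra K B := θ.toAlgebra
  haveI : Algebra.FormallySmooth K L := smooth_charZero K L
  let πa : B →ₐ[K] L := { π with commutes' := fun k => RingHom.congr_fun hθ k }
  let Φ : L →ₐ[K] B := Algebra.FormallySmooth.liftOfSurjective (AlgHom.id K L) πa hπ hsq
  refine ⟨Φ.toRingHom, ?_, ?_⟩
  · intro x
    exact Algebra.FormallySmooth.liftOfSurjective_apply (AlgHom.id K L) πa hπ hsq x
  · intro k
    exact Φ.commutes k

variable {L : Type u} [Field L] [CharZero L]

/-- transcendental elements are detected by derivations -/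
theorem exists_derivation (δ : L) (hδ : Transcendental ℚ δ) :
    ∃ D : Derivation ℤ L L, D δ ≠ 0 := by
  let f : ℚ[X] →+* L := (aeval δ : ℚ[X] →ₐ[ℚ] L).toRingHom
  have hf : Function.Injective f := transcendental_iff_injective.1 hδ
  let g0 : FractionRing ℚ[X] →+* L := IsFractionRing.lift (K := FractionRing ℚ[X]) hf
  let e : DualNumber L := TrivSqZeroExt.inl δ + TrivSqZeroExt.inr 1
  let π : DualNumber L →+* L := (TrivSqZeroExt.fstHom L L L).toRingHom
  let t : ℚ[X] →+* DualNumber L := (aeval e : ℚ[X] →ₐ[ℚ] DualNumber L).toRingHom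
  have hπt : π.comp t = f := by
    apply Polynomial.ringHom_ext'
    · exact Subsingleton.elim _ _
    · show π (aeval e X) = aeval δ X
      rw [aeval_X, aeval_X]
      show TrivSqZeroExt.fst e = δ
      simp [e]
  have ht : ∀ y : nonZeroDivisors ℚ[X], IsUnit (t y) := by
    intro y
    rw [TrivSqZeroExt.isUnit_iff_isUnit_fst]
    have h1 : (t y).fst = f y := RingHom.congr_fun hπt y
    rw [h1, isUnit_iff_ne_zero]
    intro h2
    rw [map_eq_zero_iff f hf] at h2
    exact nonZeroDivisors.ne_zero y.2 h2
  let θ : FractionRing ℚ[X] →+* DualNumber L := IsLocalization.lift ht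
  have hθ : π.comp θ = g0 := by
    apply IsLocalization.ringHom_ext (nonZeroDivisors ℚ[X])
    rw [RingHom.comp_assoc, IsLocalization.lift_comp, hπt]
    exact RingHom.ext fun x => (IsFractionRing.lift_algebraMap hf x).symm
  have hπs : Function.Surjective π := fun x => ⟨TrivSqZeroExt.inl x, rfl⟩
  have hsq : IsNilpotent (RingHom.ker π) := by
    refine ⟨2, ?_⟩
    have h1 : RingHom.ker π * RingHom.ker π ≤ ⊥ := by
      rw [Ideal.mul_le]
      intro a ha b hb
      have ha' : a.fst = 0 := ha
      have hb' : b.fst = 0 := hb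
      rw [Ideal.mem_bot]
      ext
      · simp [ha']
      · simp [ha', hb']
    have h2 : RingHom.ker π ^ 2 = RingHom.ker π * RingHom.ker π := sq _
    rw [h2]
    exact le_bot_iff.1 h1
  obtain ⟨Φ, hΦ1, hΦ2⟩ := exists_lift g0 (DualNumber L) π hπs hsq θ hθ
  have hfst : ∀ x, (Φ x).fst = x := hΦ1
  let D : Derivation ℤ L L := Derivation.mk'
    ({ toFun := fun x => (Φ x).snd
       map_add' := fun x y => by simp
       map_smul' := fun c x => by simp } : L →ₗ[ℤ] L)
    (by
      intro a b
      show (Φ (a * b)).snd = a • (Φ b).snd + b • (Φ a).snd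
      rw [map_mul, TrivSqZeroExt.snd_mul, hfst, hfst]
      simp [mul_comm])
  refine ⟨D, ?_⟩
  have h1 : g0 (algebraMap ℚ[X] _ X) = δ := by
    rw [IsFractionRing.lift_algebraMap]
    show aeval δ X = δ
    rw [aeval_X]
  have h2 : Φ δ = e := by
    rw [← h1, hΦ2, IsLocalization.lift_eq]
    show aeval e X = e
    rw [aeval_X]
  show (Φ δ).snd ≠ 0
  rw [h2]
  simp [e]

end exist

end Pool.Agent.H23R2
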