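import Mathlib

/-!
# Finitely generated domains of characteristic zero

Only finitely many primes divide a given nonzero element of a finitely generated subring of a
field of characteristic zero.
-/

set_option autoImplicit false

namespace Pool.Agent.H23R2

open Algebra

universe u

/-- Zariski's lemma, packaged: a nontrivial finitely generated `ℚ`-algebra has a point in a
finite extension of `ℚ`. -/
theorem exists_point (T : Type u) [CommRing T] [Nontrivial T] [Algebra ℚ T]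
    [Algebra.FiniteType ℚ T] :
    ∃ (L : Type u) (_ : Field L) (_ : Algebra ℚ L) (_ : Module.Finite ℚ L),
      Nonempty (T →ₐ[ℚ] L) := by
  obtain ⟨m, hm⟩ := Ideal.exists_maximal T
  let i1 : Field (T ⧸ m) := Ideal.Quotient.field m
  have h2 : @Module.Finite ℚ (T ⧸ m) _ _ (Ideal.Quotient.algebra ℚ (I := m)).toModule :=
    @finite_of_finite_type_of_isJacobsonRing ℚ (T ⧸ m) _ i1 (Ideal.Quotient.algebra ℚ (I := m)) _
      (inferInstance)
  exact ⟨T ⧸ m, i1, Ideal.Quotient.algebra ℚ (I := m), h2, ⟨Ideal.Quotient.mkₐ ℚ m⟩⟩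

theorem integral_multiple (L : Type u) [Field L] [Algebra ℚ L] [Module.Finite ℚ L] (x : L) :
    ∃ y : ℤ, y ≠ 0 ∧ IsIntegral ℤ (y • x) := by
  have h1 : IsAlgebraic ℚ x := Algebra.IsAlgebraic.isAlgebraic x
  have h2 : IsAlgebraic ℤ x := (IsFractionRing.isAlgebraic_iff ℤ ℚ L).2 h1
  exact h2.exists_integral_multiple

section inv

variable {K : Type u} [Field K] [CharZero K]

theorem finite_inv_primes (s : Finset K) :
    {p : ℕ | p.Prime ∧ ((p : K)⁻¹) ∈ Algebra.adjoin ℤ (s : Set K)}.Finite := by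
  classical
  let T : Subalgebra ℚ K := Algebra.adjoin ℚ (s : Set K)
  have hft : Algebra.FiniteType ℚ T := by
    rw [← Subalgebra.fg_iff_finiteType]
    exact ⟨s, rfl⟩
  obtain ⟨L, _, _, _, ⟨π⟩⟩ := exists_point T
  have hst : ∀ x ∈ s, x ∈ T := fun x hx => Algebra.subset_adjoin hx
  choose c hc0 hc using integral_multiple L
  let n : ℤ := ∏ x ∈ s.attach, c (π ⟨x.1, hst x.1 x.2⟩)
  have hn0 : n ≠ 0 := Finset.prod_ne_zero_iff.2 (fun x _ => hc0 _)
  have hn : ∀ x (hx : x ∈ s), IsIntegral ℤ (n • (π ⟨x, hst x hx⟩)) := by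
    intro x hx
    have h1 : c (π ⟨x, hst x hx⟩) ∣ n :=
      Finset.dvd_prod_of_mem (fun x : s => c (π ⟨x.1, hst x.1 x.2⟩))
        (Finset.mem_attach s ⟨x, hx⟩)
    obtain ⟨k, hk⟩ := h1
    rw [hk, mul_comm, mul_smul]
    exact (hc _).smul k
  have key : ∀ y : K, y ∈ Algebra.adjoin ℤ (s : Set K) →
      ∃ (hy : y ∈ T) (k : ℕ), IsIntegral ℤ ((n ^ k : ℤ) • (π ⟨y, hy⟩)) := by
    intro y hy
    induction hy using Algebra.adjoin_induction with
    | mem x hx =>
      exact ⟨hst x hx, 1, by rw [pow_one]; exact hn x hx⟩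
    | algebraMap r =>
      refine ⟨by simpa using T.intCast_mem r, 0, ?_⟩
      rw [pow_zero, one_smul]
      have h : (⟨(algebraMap ℤ K) r, by simpa using T.intCast_mem r⟩ : T) = (r : T) := by
        apply Subtype.ext
        simp
      rw [h, map_intCast]
      exact isIntegral_algebraMap (x := r)
    | add x y _ _ hx hy =>
      obtain ⟨hx1, k, hk⟩ := hx
      obtain ⟨hy1, l, hl⟩ := hy
      refine ⟨T.add_mem hx1 hy1, k + l, ?_⟩
      have : π ⟨x + y, T.add_mem hx1 hy1⟩ = π ⟨x, hx1⟩ + π ⟨y, hy1⟩ := by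
        rw [← map_add]; rfl
      rw [this, smul_add]
      apply IsIntegral.add
      · rw [pow_add, mul_comm, mul_smul]
        exact hk.smul _
      · rw [pow_add, mul_smul]
        exact hl.smul _
    | mul x y _ _ hx hy =>
      obtain ⟨hx1, k, hk⟩ := hx
      obtain ⟨hy1, l, hl⟩ := hy
      refine ⟨T.mul_mem hx1 hy1, k + l, ?_⟩
      have : π ⟨x * y, T.mul_mem hx1 hy1⟩ = π ⟨x, hx1⟩ * π ⟨y, hy1⟩ := by
        rw [← map_mul]; rfl
      rw [this, pow_add, ← smul_mul_smul_comm]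
      exact hk.mul hl
  have hfin : {p : ℕ | p.Prime ∧ (p : ℤ) ∣ n}.Finite := by
    refine Set.Finite.subset (Nat.primeFactors n.natAbs).finite_toSet ?_
    rintro p ⟨hp, hpn⟩
    simp only [Finset.mem_coe, Nat.mem_primeFactors]
    refine ⟨hp, ?_, by simpa using hn0⟩
    exact Int.natCast_dvd.1 hpn
  refine hfin.subset ?_
  rintro p ⟨hp, hpin⟩
  refine ⟨hp, ?_⟩
  obtain ⟨hT, k, hk⟩ := key _ hpin
  have himg : π ⟨(p : K)⁻¹, hT⟩ = algebraMap ℚ L ((p : ℚ)⁻¹) := by
    have h1 : (⟨(p : K)⁻¹, hT⟩ : T) = algebraMap ℚ T ((p : ℚ)⁻¹) := by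
      apply Subtype.ext
      rw [Subalgebra.coe_algebraMap]
      simp
    rw [h1, AlgHom.commutes]
  rw [himg] at hk
  have h2 : ((n ^ k : ℤ) • algebraMap ℚ L ((p : ℚ)⁻¹)) =
      algebraMap ℚ L (((n ^ k : ℤ) : ℚ) * (p : ℚ)⁻¹) := by
    rw [map_mul, map_intCast, zsmul_eq_mul]
  rw [h2] at hk
  have h3 : IsIntegral ℤ (((n ^ k : ℤ) : ℚ) * (p : ℚ)⁻¹) :=
    (isIntegral_algebraMap_iff (algebraMap ℚ L).injective).1 hk
  obtain ⟨z, hz⟩ := IsIntegrallyClosed.isIntegral_iff.1 h3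
  have hp1 : (p : ℚ) ≠ 0 := by exact_mod_cast hp.ne_zero
  have h4 : (n ^ k : ℤ) = z * p := by
    have : ((n ^ k : ℤ) : ℚ) = (z : ℚ) * p := by
      have hz' : (z : ℚ) = ((n ^ k : ℤ) : ℚ) * (p : ℚ)⁻¹ := by simpa using hz
      rw [hz', mul_assoc, inv_mul_cancel₀ hp1, mul_one]
    exact_mod_cast this
  have h5 : (p : ℤ) ∣ n ^ k := ⟨z, by rw [h4, mul_comm]⟩
  exact (Nat.prime_iff_prime_int.1 hp).dvd_of_dvd_pow h5

/-- a nonzero element of a finitely generated subring of a field of characteristic zero is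
divisible by finitely many primes only -/
theorem finite_dvd_primes (s : Finset K) (x : K) (hx : x ≠ 0) :
    {p : ℕ | p.Prime ∧ ∃ y ∈ Algebra.adjoin ℤ (s : Set K), x = (p : K) * y}.Finite := by
  classical
  refine (finite_inv_primes (insert x⁻¹ s)).subset ?_
  rintro p ⟨hp, y, hy, hxy⟩
  refine ⟨hp, ?_⟩
  have hp0 : (p : K) ≠ 0 := by exact_mod_cast hp.ne_zero
  have h1 : (p : K)⁻¹ = x⁻¹ * y := by
    rw [hxy] at hx ⊢
    have hy0 : y ≠ 0 := right_ne_zero_of_mul hx
    field_simp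
  rw [h1]
  apply Subalgebra.mul_mem
  · apply Algebra.subset_adjoin
    simp
  · exact Algebra.adjoin_mono (by simp) hy

end inv

end Pool.Agent.H23R2
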