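import Pool.Agent.H23R2.Bridge
import Pool.Agent.H23R2.Der
import Pool.Agent.H23R2.Fin

/-!
# Determinants of representations of invertible matrices over integral group rings
-/

set_option autoImplicit false
set_option linter.unusedSectionVars false
set_option linter.style.haveILetI false

namespace Pool.Agent.H23R2

open Finset
open scoped Classical

universe u v w

/-- the block matrix obtained by applying a representation to a matrix over the group ring -/
noncomputable def blockRep {Γ : Type u} [Group Γ] {L : Type v} [CommRing L] {n d : ℕ}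
    (ρ : Γ →* GL (Fin d) L) (A : Matrix (Fin n) (Fin n) (MonoidAlgebra ℤ Γ)) :
    Matrix (Fin n × Fin d) (Fin n × Fin d) L :=
  Matrix.of fun x y => (A x.1 y.1).coeff.sum fun g a => (a : L) * (ρ g).val x.2 y.2

section block

variable {Γ : Type u} [Group Γ] {L : Type v} [CommRing L] {I : Type*} [Fintype I] {d : ℕ}
  {S : Finset Γ}

/-- block matrices at the level of coefficient functions -/
noncomputable def blk (ρ : Γ →* GL (Fin d) L) (A : I → I → Γ → ℤ) (S : Finset Γ) :
    Matrix (I × Fin d) (I × Fin d) L :=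
  Matrix.of fun x y => ∑ g ∈ S, (A x.1 y.1 g : L) * (ρ g).val x.2 y.2

lemma blk_mul [DecidableEq I] (ρ : Γ →* GL (Fin d) L) {A B : I → I → Γ → ℤ}
    (h : ∀ i i' g, ∑ j, ∑ a ∈ S, ∑ b ∈ S, (if a * b = g then A i j a * B j i' b else 0)
      = if i = i' ∧ g = 1 then 1 else 0) :
    blk ρ A S * blk ρ B S = 1 := by
  ext ⟨i, a⟩ ⟨i', b⟩
  rw [Matrix.mul_apply]
  simp only [blk, Matrix.of_apply]
  rw [Fintype.sum_prod_type]
  have h1 : ∀ j : I, ∀ c : Fin d,
      (∑ g ∈ S, (A i j g : L) * (ρ g).val a c) * (∑ g ∈ S, (B j i' g : L) * (ρ g).val c b) =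
      ∑ g ∈ S, ∑ k ∈ S, ((A i j g * B j i' k : ℤ) : L) * ((ρ g).val a c * (ρ k).val c b) := by
    intro j c
    rw [Finset.sum_mul_sum]
    apply Finset.sum_congr rfl
    intro g _
    apply Finset.sum_congr rfl
    intro k _
    push_cast
    ring
  simp_rw [h1]
  have h2 : ∀ j : I, ∑ c, ∑ g ∈ S, ∑ k ∈ S,
      ((A i j g * B j i' k : ℤ) : L) * ((ρ g).val a c * (ρ k).val c b) =
      ∑ g ∈ S, ∑ k ∈ S, ((A i j g * B j i' k : ℤ) : L) * (ρ (g * k)).val a b := by
    intro j
    rw [Finset.sum_comm]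
    apply Finset.sum_congr rfl
    intro g _
    rw [Finset.sum_comm]
    apply Finset.sum_congr rfl
    intro k _
    rw [← Finset.mul_sum, map_mul, Units.val_mul, Matrix.mul_apply]
  simp_rw [h2]
  -- insert the product
  let P : Finset Γ := insert 1 (Finset.image₂ (fun g k => g * k) S S)
  have h3 : ∀ g ∈ S, ∀ k ∈ S, g * k ∈ P := fun g hg k hk =>
    Finset.mem_insert_of_mem (Finset.mem_image₂_of_mem hg hk)
  have h4 : ∑ j, ∑ g ∈ S, ∑ k ∈ S, ((A i j g * B j i' k : ℤ) : L) * (ρ (g * k)).val a b =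
      ∑ w ∈ P, ((∑ j, ∑ g ∈ S, ∑ k ∈ S,
        (if g * k = w then A i j g * B j i' k else 0) : ℤ) : L) * (ρ w).val a b := by
    have : ∀ j : I, ∀ g ∈ S, ∀ k ∈ S, ((A i j g * B j i' k : ℤ) : L) * (ρ (g * k)).val a b =
        ∑ w ∈ P, ((if g * k = w then A i j g * B j i' k else 0 : ℤ) : L) * (ρ w).val a b := by
      intro j g hg k hk
      rw [Finset.sum_eq_single (g * k)]
      · rw [if_pos rfl]
      · intro w _ hw
        rw [if_neg (Ne.symm hw), Int.cast_zero, zero_mul]
      · intro hn; exact absurd (h3 g hg k hk) hn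
    rw [Finset.sum_congr rfl (fun j _ => Finset.sum_congr rfl (fun g hg =>
      Finset.sum_congr rfl (fun k hk => this j g hg k hk)))]
    simp_rw [Int.cast_sum, Finset.sum_mul]
    symm
    rw [Finset.sum_comm]
    apply Finset.sum_congr rfl
    intro j _
    rw [Finset.sum_comm]
    apply Finset.sum_congr rfl
    intro g _
    rw [Finset.sum_comm]
  rw [h4]
  simp_rw [h]
  rw [Finset.sum_eq_single (1 : Γ)]
  · rw [Matrix.one_apply]
    by_cases hi : i = i'
    · subst hi
      simp [Matrix.one_apply]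
    · simp [hi]
  · intro w _ hw
    simp [hw]
  · intro hn
    exact absurd (Finset.mem_insert_self _ _) hn

lemma blk_inv [DecidableEq I] (ρ : Γ →* GL (Fin d) L) {A B : I → I → Γ → ℤ}
    (h : InvPair A B S) :
    blk ρ A S * blk ρ B S = 1 ∧ blk ρ B S * blk ρ A S = 1 :=
  ⟨blk_mul ρ (fun i i' g => by rw [h.ab]; congr),
    blk_mul ρ (fun i i' g => by rw [h.ba]; congr)⟩

/-- the trace form -/
noncomputable def trF (ρ : Γ →* GL (Fin d) L) (D : Derivation ℤ L L) (w x : Γ) : L :=
  ((ρ (x⁻¹ * w)).val * (ρ x).val.map D).trace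

lemma map_mul_der {m : Type*} [Fintype m] [DecidableEq m] (D : Derivation ℤ L L)
    (X Y : Matrix m m L) : (X * Y).map D = X * Y.map D + X.map D * Y := by
  ext i j
  simp only [Matrix.map_apply, Matrix.mul_apply, Matrix.add_apply]
  rw [map_sum, ← Finset.sum_add_distrib]
  apply Finset.sum_congr rfl
  intro k _
  rw [Derivation.leibniz]
  simp [mul_comm]

lemma trF_coc (ρ : Γ →* GL (Fin d) L) (D : Derivation ℤ L L) : IsCoc (trF ρ D) := by
  intro w x y
  simp only [trF]
  rw [map_mul ρ x y, Units.val_mul, map_mul_der, mul_add, Matrix.trace_add]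
  have e1 : (ρ ((x * y)⁻¹ * w)).val * ((ρ x).val.map D * (ρ y).val) =
      ((ρ ((x * y)⁻¹ * w)).val * (ρ x).val.map D) * (ρ y).val := by rw [mul_assoc]
  have e2 : (((ρ ((x * y)⁻¹ * w)).val * (ρ x).val.map D) * (ρ y).val).trace =
      ((ρ (x⁻¹ * w)).val * (ρ x).val.map D).trace := by
    rw [Matrix.trace_mul_comm, ← mul_assoc, ← Units.val_mul, ← map_mul]
    congr 4
    group
  have e3 : (ρ ((x * y)⁻¹ * w)).val * ((ρ x).val * (ρ y).val.map D) =
      (ρ (y⁻¹ * (x⁻¹ * w * x))).val * (ρ y).val.map D := by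
    rw [← mul_assoc, ← Units.val_mul, ← map_mul]
    congr 3
    group
  rw [e1, e2, e3, add_comm]

/-- the trace pairing of block matrices in terms of coefficient functions -/
lemma trace_blk (ρ : Γ →* GL (Fin d) L) (D : Derivation ℤ L L) (A B : I → I → Γ → ℤ) :
    (blk ρ B S * (blk ρ A S).map D).trace = DsumZ A B S (trF ρ D) := by
  unfold DsumZ
  rw [sum_Y_eq S (fun i j a b => (A i j a * B j i b) • trF ρ D (a * b) a)]
  rw [Matrix.trace, Fintype.sum_prod_type]
  simp only [Matrix.diag_apply, Matrix.mul_apply, Matrix.map_apply, blk, Matrix.of_apply,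
    Fintype.sum_prod_type]
  rw [Finset.sum_comm (s := Finset.univ) (t := Finset.univ)
    (f := fun i j => ∑ a ∈ S, ∑ b ∈ S, (A i j a * B j i b) • trF ρ D (a * b) a)]
  apply Finset.sum_congr rfl
  intro i _
  rw [Finset.sum_comm]
  apply Finset.sum_congr rfl
  intro j _
  have h1 : ∀ x y : Fin d, (∑ g ∈ S, (B i j g : L) * (ρ g).val x y) *
      D (∑ g ∈ S, (A j i g : L) * (ρ g).val y x) =
      ∑ a ∈ S, ∑ b ∈ S, ((A j i a * B i j b : ℤ) : L) * ((ρ b).val x y * D ((ρ a).val y x)) := by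
    intro x y
    rw [map_sum, Finset.sum_mul_sum, Finset.sum_comm]
    apply Finset.sum_congr rfl
    intro a _
    apply Finset.sum_congr rfl
    intro b _
    have : D ((A j i a : L) * (ρ a).val y x) = (A j i a : L) * D ((ρ a).val y x) := by
      rw [Derivation.leibniz]
      have h0 : D (A j i a : L) = 0 := by
        have := D.map_algebraMap (A j i a)
        simpa using this
      rw [h0, smul_zero, add_zero, smul_eq_mul]
    rw [this]
    push_cast
    ring
  simp_rw [h1]
  have h2 : ∀ x : Fin d, ∑ y, ∑ a ∈ S, ∑ b ∈ S,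
      ((A j i a * B i j b : ℤ) : L) * ((ρ b).val x y * D ((ρ a).val y x)) =
      ∑ a ∈ S, ∑ b ∈ S, ∑ y,
      ((A j i a * B i j b : ℤ) : L) * ((ρ b).val x y * D ((ρ a).val y x)) := by
    intro x
    rw [Finset.sum_comm]
    apply Finset.sum_congr rfl
    intro a _
    rw [Finset.sum_comm]
  simp_rw [h2]
  rw [Finset.sum_comm]
  apply Finset.sum_congr rfl
  intro a _
  rw [Finset.sum_comm]
  apply Finset.sum_congr rfl
  intro b _
  simp only [trF, inv_mul_cancel_left, Matrix.trace, Matrix.diag_apply, Matrix.mul_apply,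
    Matrix.map_apply]
  rw [zsmul_eq_mul, Finset.mul_sum]
  apply Finset.sum_congr rfl
  intro x _
  rw [Finset.mul_sum]

end block

section subgroup

variable {Γ : Type u} [Group Γ] {I : Type*} [Fintype I] {S : Finset Γ}

/-- restriction of coefficient functions to the subgroup generated by the support -/
def resc (S : Finset Γ) (A : I → I → Γ → ℤ) :
    I → I → Subgroup.closure (S : Set Γ) → ℤ := fun i j h => A i j h.1

/-- the support inside the subgroup generated by it -/
noncomputable def resS (S : Finset Γ) : Finset (Subgroup.closure (S : Set Γ)) :=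
  S.subtype (fun x => x ∈ Subgroup.closure (S : Set Γ))

lemma sum_resS {R : Type*} [AddCommMonoid R] (f : Γ → R) :
    ∑ h ∈ resS S, f h.1 = ∑ g ∈ S, f g :=
  Finset.sum_subtype_of_mem f (fun _ hx => Subgroup.subset_closure hx)

lemma res_half {A B : I → I → Γ → ℤ}
    (h : ∀ i i' g, ∑ j, ∑ a ∈ S, ∑ b ∈ S, (if a * b = g then A i j a * B j i' b else 0)
      = if i = i' ∧ g = 1 then 1 else 0) (i i' : I) (g : Subgroup.closure (S : Set Γ)) :
    ∑ j, ∑ a ∈ resS S, ∑ b ∈ resS S, (if a * b = g then resc S A i j a * resc S B j i' b else 0)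
      = if i = i' ∧ g = 1 then 1 else 0 := by
  have h1 : (if i = i' ∧ g = 1 then (1 : ℤ) else 0) = if i = i' ∧ g.1 = 1 then 1 else 0 := by
    congr 1
    rw [← Subgroup.coe_one (Subgroup.closure (S : Set Γ)), ← Subtype.ext_iff]
  rw [h1, ← h i i' g.1]
  apply Finset.sum_congr rfl
  intro j _
  rw [← sum_resS (S := S) (fun a => ∑ b ∈ S, (if a * b = g.1 then A i j a * B j i' b else 0))]
  apply Finset.sum_congr rfl
  intro a _
  rw [← sum_resS (S := S) (fun b => (if a.1 * b = g.1 then A i j a.1 * B j i' b else 0))]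
  apply Finset.sum_congr rfl
  intro b _
  have : (a * b = g) ↔ (a.1 * b.1 = g.1) := by
    rw [Subtype.ext_iff]; rfl
  simp only [this, resc]

lemma InvPair.res {A B : I → I → Γ → ℤ} (h : InvPair A B S) :
    InvPair (resc S A) (resc S B) (resS S) := by
  constructor
  · intro i i' g
    convert res_half h.ab i i' g
  · intro i i' g
    convert res_half h.ba i i' g

lemma DsumZ_res {M M' : Type*} [AddCommGroup M] [AddCommGroup M'] (A B : I → I → Γ → ℤ)
    (F' : Subgroup.closure (S : Set Γ) → Subgroup.closure (S : Set Γ) → M') (ι : M' →+ M)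
    (F : Γ → Γ → M) (hF : ∀ w x, ι (F' w x) = F w.1 x.1) :
    ι (DsumZ (resc S A) (resc S B) (resS S) F') = DsumZ A B S F := by
  unfold DsumZ
  rw [map_sum]
  rw [sum_Y_eq S (fun i j a b => (A i j a * B j i b) • F (a * b) a)]
  have h1 : ∀ y : Y I (resS S), ι ((resc S A y.1 y.2.1 y.2.2.1 * resc S B y.2.1 y.1 y.2.2.2) •
      F' (y.2.2.1 * y.2.2.2) y.2.2.1) =
      (A y.1 y.2.1 y.2.2.1.1.1 * B y.2.1 y.1 y.2.2.2.1.1) •
        F (y.2.2.1.1.1 * y.2.2.2.1.1) y.2.2.1.1.1 := by
    intro y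
    rw [map_zsmul, hF]
    rfl
  simp_rw [h1]
  rw [sum_Y_eq (resS S) (fun i j a b => (A i j a.1 * B j i b.1) • F (a.1 * b.1) a.1)]
  apply Finset.sum_congr rfl
  intro i _
  apply Finset.sum_congr rfl
  intro j _
  rw [← sum_resS (S := S) (fun a => ∑ b ∈ S, (A i j a * B j i b) • F (a * b) a)]
  apply Finset.sum_congr rfl
  intro a _
  rw [← sum_resS (S := S) (fun b => (A i j a.1 * B j i b) • F (a.1 * b) a.1)]

/-- the group element attached to an invertible matrix -/
noncomputable def gamS (A B : I → I → Γ → ℤ) (S : Finset Γ) : Γ :=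
  (gam (resc S A) (resc S B) (resS S)).1

variable {L : Type v} [Field L] [CharZero L] {d : ℕ}

/-- all values on the subgroup lie in a finitely generated ring -/
lemma values_mem (ρ : Γ →* GL (Fin d) L) (D : Derivation ℤ L L) (R : Subalgebra ℤ L)
    (h1 : ∀ t ∈ S, ∀ i j, (ρ t).val i j ∈ R ∧ (ρ t⁻¹).val i j ∈ R ∧
      D ((ρ t).val i j) ∈ R ∧ D ((ρ t⁻¹).val i j) ∈ R) (h : Γ)
    (hh : h ∈ Subgroup.closure (S : Set Γ)) :
    ∀ i j, (ρ h).val i j ∈ R ∧ D ((ρ h).val i j) ∈ R := by
  have hmul : ∀ x y : Γ, (∀ i j, (ρ x).val i j ∈ R ∧ D ((ρ x).val i j) ∈ R) →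
      (∀ i j, (ρ y).val i j ∈ R ∧ D ((ρ y).val i j) ∈ R) →
      ∀ i j, (ρ (x * y)).val i j ∈ R ∧ D ((ρ (x * y)).val i j) ∈ R := by
    intro x y hx hy i j
    rw [map_mul, Units.val_mul, Matrix.mul_apply, map_sum]
    refine ⟨R.sum_mem (fun k _ => R.mul_mem (hx i k).1 (hy k j).1), R.sum_mem (fun k _ => ?_)⟩
    rw [Derivation.leibniz]
    exact R.add_mem (R.mul_mem (hx i k).1 (hy k j).2) (R.mul_mem (hy k j).1 (hx i k).2)
  induction hh using Subgroup.closure_induction_left with
  | one =>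
    intro i j
    rw [map_one, Units.val_one, Matrix.one_apply]
    split_ifs
    · exact ⟨R.one_mem, by rw [Derivation.map_one_eq_zero]; exact R.zero_mem⟩
    · exact ⟨R.zero_mem, by rw [map_zero]; exact R.zero_mem⟩
  | mul_left x hx y _ ih =>
    exact hmul x y (fun i j => ⟨(h1 x hx i j).1, (h1 x hx i j).2.2.1⟩) ih
  | inv_mul_cancel x hx y _ ih =>
    exact hmul x⁻¹ y (fun i j => ⟨(h1 x hx i j).2.1, (h1 x hx i j).2.2.2⟩) ih

/-- the logarithmic derivative of the determinant -/
theorem log_der {A B : I → I → Γ → ℤ} (h : InvPair A B S)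
    (hgood : {p : ℕ | GoodPrime (Subgroup.closure (S : Set Γ)) p}.Infinite)
    (ρ : Γ →* GL (Fin d) L) (D : Derivation ℤ L L) :
    DsumZ A B S (trF ρ D) = trF ρ D 1 (gamS A B S) := by
  let s : Finset L := S.biUnion fun t => Finset.univ.biUnion fun i : Fin d =>
    Finset.univ.biUnion fun j : Fin d => {(ρ t).val i j, (ρ t⁻¹).val i j,
      D ((ρ t).val i j), D ((ρ t⁻¹).val i j)}
  let R : Subalgebra ℤ L := Algebra.adjoin ℤ (s : Set L)
  have hs : ∀ t ∈ S, ∀ i j, ∀ x : L, (x = (ρ t).val i j ∨ x = (ρ t⁻¹).val i j ∨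
      x = D ((ρ t).val i j) ∨ x = D ((ρ t⁻¹).val i j)) → x ∈ R := by
    intro t ht i j x hx
    apply Algebra.subset_adjoin
    simp only [s, Finset.coe_biUnion, Set.mem_iUnion]
    exact ⟨t, ht, i, by simp, j, by simp, by simpa using hx⟩
  have hval := values_mem (S := S) ρ D R (fun t ht i j =>
    ⟨hs t ht i j _ (by simp), hs t ht i j _ (by simp), hs t ht i j _ (by simp),
      hs t ht i j _ (by simp)⟩)
  have hmem : ∀ w x : Subgroup.closure (S : Set Γ), trF ρ D w.1 x.1 ∈ R := by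
    intro w x
    unfold trF
    rw [Matrix.trace]
    apply R.sum_mem
    intro i _
    rw [Matrix.diag_apply, Matrix.mul_apply]
    apply R.sum_mem
    intro j _
    apply R.mul_mem
    · exact (hval (x.1⁻¹ * w.1) (Subgroup.mul_mem _ (Subgroup.inv_mem _ x.2) w.2) i j).1
    · exact (hval x.1 x.2 j i).2
  let F' : Subgroup.closure (S : Set Γ) → Subgroup.closure (S : Set Γ) → R :=
    fun w x => ⟨trF ρ D w.1 x.1, hmem w x⟩
  have hF' : IsCoc F' := by
    intro w x y
    apply Subtype.ext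
    exact trF_coc ρ D w.1 x.1 y.1
  let ι : R →+ L := R.val.toRingHom.toAddMonoidHom
  have hι : ∀ w x, ι (F' w x) = trF ρ D w.1 x.1 := fun w x => rfl
  by_contra hne
  have hne' : DsumZ A B S (trF ρ D) - trF ρ D 1 (gamS A B S) ≠ 0 := sub_ne_zero.2 hne
  have hfin := finite_dvd_primes s _ hne'
  apply hgood
  refine hfin.subset ?_
  intro p hp
  refine ⟨hp.prime, ?_⟩
  obtain ⟨m, hm⟩ := DsumZ_main h.res hp hF'
  refine ⟨m.1, m.2, ?_⟩
  have h1 := congrArg ι hm
  rw [DsumZ_res A B F' ι (trF ρ D) hι, map_add, map_nsmul] at h1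
  rw [h1]
  have h2 : ι (F' 1 (gam (resc S A) (resc S B) (resS S))) = trF ρ D 1 (gamS A B S) := rfl
  rw [h2, nsmul_eq_mul]
  have h3 : ι m = (m : L) := rfl
  rw [h3]
  ring

end subgroup

section final

variable {Γ : Type u} [Group Γ] {n : ℕ}

lemma blockRep_eq {L : Type v} [CommRing L] {d : ℕ} (ρ : Γ →* GL (Fin d) L)
    (A : Matrix (Fin n) (Fin n) (MonoidAlgebra ℤ Γ)) (S : Finset Γ)
    (hA : ∀ i j g, (A i j).coeff g ≠ 0 → g ∈ S) :
    blockRep ρ A = blk ρ (cf A) S := by
  ext ⟨i, a⟩ ⟨j, b⟩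
  simp only [blockRep, blk, Matrix.of_apply, Finsupp.sum, cf]
  apply Finset.sum_subset
  · intro g hg
    exact hA i j g (by simpa using hg)
  · intro g _ hg
    have : (A i j).coeff g = 0 := by simpa using hg
    simp [this]

/-- for groups all of whose finitely generated subgroups have infinitely many good primes, the
determinants of representations in characteristic zero are rigid -/
theorem det_algebraic
    (hgood : ∀ S : Finset Γ, {p : ℕ | GoodPrime (Subgroup.closure (S : Set Γ)) p}.Infinite)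
    (A : (Matrix (Fin n) (Fin n) (MonoidAlgebra ℤ Γ))ˣ) :
    ∃ γ : Γ, ∀ (L : Type v) [Field L] [CharZero L] (d : ℕ) (ρ : Γ →* GL (Fin d) L),
      IsAlgebraic ℚ ((blockRep ρ A.val).det / (ρ γ).val.det) := by
  set S : Finset Γ := supp A.val ∪ supp (A⁻¹).val with hS
  have hA : ∀ i j g, (A.val i j).coeff g ≠ 0 → g ∈ S := fun i j g hg =>
    Finset.mem_union_left _ (mem_supp _ i j g hg)
  have hpair : InvPair (cf A.val) (cf (A⁻¹).val) S := invPair_units A
  refine ⟨gamS (cf A.val) (cf (A⁻¹).val) S, ?_⟩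
  intro L _ _ d ρ
  by_contra hcon
  obtain ⟨D, hD⟩ := exists_derivation _ hcon
  apply hD
  set γ := gamS (cf A.val) (cf (A⁻¹).val) S with hγ
  have h1 := log_der hpair (hgood S) ρ D
  rw [← trace_blk] at h1
  rw [blockRep_eq ρ A.val S hA]
  have h2 := jacobi D _ _ (blk_inv ρ hpair).1
  rw [h1] at h2
  have h3 : D (ρ γ).val.det = (ρ γ).val.det * trF ρ D 1 γ := by
    have := jacobi D (ρ γ).val (ρ γ⁻¹).val (by rw [← Units.val_mul, ← map_mul]; simp)
    rw [this]
    simp [trF]
  rw [Derivation.leibniz_div, h2, h3]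
  simp only [smul_eq_mul]
  ring

end final

end Pool.Agent.H23R2
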