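import Mathlib
import Pool.Agent.H542R2.Process

/-!
Families of fewer than `2 ^ (c * n)` formulas of size at most `C * n`: there is a subcube on which
every formula is, at every point, insensitive to some free coordinate (in fact to most of them).
-/

namespace H23.Ins

open H542 Finset

/-- the blocks: residues modulo `m` -/
def blk {n m : ℕ} (hm : 0 < m) (x : Fin n) : Fin m := ⟨x.val % m, Nat.mod_lt _ hm⟩

theorem cnt_ge {n m k : ℕ} (hm : 0 < m) (hn : k * m ≤ n) (i : Fin m) :
    k ≤ cnt (blk (n := n) hm) univ i := by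
  have hlt : ∀ j : Fin k, i.val + j.val * m < n := by
    intro j
    have h1 := i.isLt
    have h2 : (j.val + 1) * m ≤ k * m := Nat.mul_le_mul_right m j.isLt
    nlinarith
  have hcard : (univ : Finset (Fin k)).card ≤ ((univ : Finset (Fin n)).filter
      fun x => blk hm x = i).card := by
    apply card_le_card_of_injOn (fun j : Fin k => (⟨i.val + j.val * m, hlt j⟩ : Fin n))
    · intro j _
      refine mem_coe.mpr (mem_filter.mpr ⟨mem_univ _, Fin.ext ?_⟩)
      show (i.val + j.val * m) % m = i.val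
      rw [Nat.add_mul_mod_self_right]
      exact Nat.mod_eq_of_lt i.isLt
    · intro j _ j' _ h
      simp only [Fin.mk.injEq] at h
      apply Fin.ext
      have h2 : j.val * m = j'.val * m := by omega
      exact Nat.eq_of_mul_eq_mul_right hm h2
  simpa [cnt] using hcard

theorem card_U {n m : ℕ} (hm : 0 < m) (U : Finset (Fin n))
    (hU : ∀ i, cnt (blk (n := n) hm) U i = 1) : U.card = m := by
  have h1 : U.card = ∑ i : Fin m, (U.filter fun v => blk hm v = i).card :=
    card_eq_sum_card_fiberwise fun _ _ => mem_univ _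
  rw [h1]
  have h2 : ∀ i : Fin m, (U.filter fun v => blk hm v = i).card = 1 := hU
  simp [h2]

/-- The insensitivity lemma. -/
theorem exists_cube (C : ℕ) : ∃ (n0 : ℕ) (c : ℝ), 0 < c ∧ ∀ n ≥ n0, ∀ (S : ℕ)
    (φ : Fin S → T (Fin n) ⊕ Bool), (∀ j, leavess (φ j) ≤ C * n) → (S : ℝ) < 2 ^ (c * n) →
    ∃ (U : Finset (Fin n)) (ρ : Fin n → Bool), ∀ (j : Fin S) (z : Fin n → Bool),
      (∀ v, v ∉ U → z v = ρ v) → ∃ v ∈ U,
        evs (Function.update z v (!z v)) (φ j) = evs z (φ j) := by
  -- parameters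
  obtain ⟨q, hq⟩ : ∃ q, q = 4 := ⟨_, rfl⟩
  obtain ⟨C', hC'⟩ : ∃ C', C' = C + 1 := ⟨_, rfl⟩
  have hq0 : (0 : ℝ) < q := by rw [hq]; positivity
  have hC0 : (0 : ℝ) < C' := by rw [hC']; positivity
  obtain ⟨t, ht⟩ : ∃ t : ℝ, t = Real.exp (44 * q * (2 * C' + 1)) := ⟨_, rfl⟩
  have ht0 : 0 < t := by rw [ht]; exact Real.exp_pos _
  obtain ⟨k, hk1, hk⟩ := th_small (1 / (4 * q * C' * t)) (by positivity)
  obtain ⟨r, hr⟩ : ∃ r, r = 2 * C' * k * q := ⟨_, rfl⟩
  have hk0 : (0 : ℝ) < k := by exact_mod_cast hk1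
  have hq1 : 1 ≤ q := by rw [hq]; omega
  have hC1 : 1 ≤ C' := by omega
  have hr1 : 1 ≤ r := by
    rw [hr]
    exact Nat.mul_pos (Nat.mul_pos (Nat.mul_pos (by norm_num) hC1) hk1) hq1
  have hr0 : (0 : ℝ) < r := by exact_mod_cast hr1
  obtain ⟨m0, hm0⟩ : ∃ m0, m0 = 4 + 44 * q * r := ⟨_, rfl⟩
  refine ⟨k * m0, 1 / (2 * k * r), by positivity, ?_⟩
  intro n hn S φ hφ hcon
  obtain ⟨m, hm⟩ : ∃ m, m = n / k := ⟨_, rfl⟩
  have hmm0 : m0 ≤ m := by
    rw [hm, Nat.le_div_iff_mul_le (by omega), mul_comm]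
    exact hn
  have hmpos : 0 < m := by omega
  have hkm : k * m ≤ n := by rw [hm]; exact Nat.mul_div_le n k
  have hN2 : n ≤ 2 * k * m := by
    have h1 : n < k * (m + 1) := by rw [hm]; exact Nat.lt_mul_div_succ n (by omega)
    nlinarith
  have hmR : (0 : ℝ) < m := by exact_mod_cast hmpos
  obtain ⟨w, hw⟩ : ∃ w, w = m / q := ⟨_, rfl⟩
  obtain ⟨K, hK⟩ : ∃ K, K = w / (22 * r) := ⟨_, rfl⟩
  have hqr : q ≤ 44 * q * r := by nlinarith
  have hw1 : 1 ≤ w := by
    rw [hw, Nat.le_div_iff_mul_le (by omega)]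
    omega
  have hKw : 22 * (K * r) ≤ w := by
    have := Nat.div_mul_le_self w (22 * r)
    rw [← hK] at this
    nlinarith
  have hsr : C' * n / r ≤ m / q := by
    calc C' * n / r ≤ (2 * C' * k * m) / r := by
          apply Nat.div_le_div_right
          calc C' * n ≤ C' * (2 * k * m) := Nat.mul_le_mul_left _ hN2
            _ = 2 * C' * k * m := by ring
      _ = m / q := by
          rw [hr]
          exact Nat.mul_div_mul_left m q (Nat.mul_pos (Nat.mul_pos (by norm_num) hC1) hk1)
  have hmain : (S : ℝ) * Real.exp ((C' * n / r : ℕ) / k) * (th k * (C' * n : ℕ)) ^ K <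
      (w : ℝ) ^ K := by
    have hwr : (m : ℝ) / (2 * q) ≤ w := by
      have h1 : m < q * (m / q + 1) := Nat.lt_mul_div_succ m (by omega)
      rw [← hw] at h1
      have h2 : (m : ℝ) < q * (w + 1) := by exact_mod_cast h1
      have h3 : (1 : ℝ) ≤ w := by exact_mod_cast hw1
      rw [div_le_iff₀ (by positivity)]
      nlinarith
    have hKr : (m : ℝ) / (44 * q * r) ≤ K := by
      have h0 : K = m / (q * (22 * r)) := by rw [hK, hw, Nat.div_div_eq_div_mul]
      have h1 : m < q * (22 * r) * (K + 1) := by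
        rw [h0]
        exact Nat.lt_mul_div_succ m (Nat.mul_pos hq1 (Nat.mul_pos (by norm_num) hr1))
      have h2 : (m : ℝ) < q * (22 * r) * (K + 1) := by exact_mod_cast h1
      have h3 : 44 * q * r ≤ m := by omega
      have h4 : (44 : ℝ) * q * r ≤ m := by exact_mod_cast h3
      rw [div_le_iff₀ (by positivity)]
      nlinarith
    have hx : th k * ((C' * n : ℕ) : ℝ) ≤ w / t := by
      have h1 : ((C' * n : ℕ) : ℝ) ≤ C' * (2 * k * m) := by
        have : C' * n ≤ C' * (2 * k * m) := Nat.mul_le_mul_left _ hN2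
        exact_mod_cast this
      calc th k * ((C' * n : ℕ) : ℝ) ≤ th k * (C' * (2 * k * m)) :=
            mul_le_mul_of_nonneg_left h1 (th_pos k).le
        _ = (k * th k) * (2 * C' * m) := by ring
        _ ≤ (1 / (4 * q * C' * t)) * (2 * C' * m) :=
            mul_le_mul_of_nonneg_right hk (by positivity)
        _ = (m / (2 * q)) / t := by field_simp; ring
        _ ≤ w / t := div_le_div_of_nonneg_right hwr ht0.le
    have hxK : (th k * ((C' * n : ℕ) : ℝ)) ^ K ≤ (w : ℝ) ^ K *
        Real.exp (-((2 * C' + 1) * (m / r))) := by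
      calc (th k * ((C' * n : ℕ) : ℝ)) ^ K ≤ (w / t) ^ K :=
            pow_le_pow_left₀ (by have := th_pos k; positivity) hx K
        _ = (w : ℝ) ^ K * Real.exp (-(K * (44 * q * (2 * C' + 1)))) := by
            rw [div_pow, ht, ← Real.exp_nat_mul, Real.exp_neg, div_eq_mul_inv]
        _ ≤ (w : ℝ) ^ K * Real.exp (-((2 * C' + 1) * (m / r))) := by
            apply mul_le_mul_of_nonneg_left _ (by positivity)
            apply Real.exp_le_exp.mpr
            have h1 := mul_le_mul_of_nonneg_right hKr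
              (show (0 : ℝ) ≤ 44 * q * (2 * C' + 1) by positivity)
            have h2 : (m : ℝ) / (44 * q * r) * (44 * q * (2 * C' + 1)) =
                (2 * C' + 1) * (m / r) := by
              field_simp
            linarith
    have he : Real.exp ((C' * n / r : ℕ) / k) ≤ Real.exp (2 * C' * (m / r)) := by
      apply Real.exp_le_exp.mpr
      have h1 : ((C' * n / r : ℕ) : ℝ) ≤ m / q := by
        have h2 : ((C' * n / r : ℕ) : ℝ) ≤ ((m / q : ℕ) : ℝ) := by exact_mod_cast hsr
        exact h2.trans Nat.cast_div_le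
      calc ((C' * n / r : ℕ) : ℝ) / k ≤ (m / q) / k := div_le_div_of_nonneg_right h1 hk0.le
        _ = 2 * C' * (m / r) := by
            rw [hr]
            push_cast
            field_simp
    have hS : (S : ℝ) < Real.exp (m / r) := by
      refine hcon.trans_le ?_
      have h1 : (1 : ℝ) / (2 * k * r) * n ≤ m / r := by
        rw [div_mul_eq_mul_div, one_mul, div_le_div_iff₀ (by positivity) hr0]
        have h2 : (n : ℝ) ≤ 2 * k * m := by exact_mod_cast hN2
        nlinarith
      have h3 : (0 : ℝ) ≤ 1 / (2 * k * r) * n := by positivity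
      have h4 : (2 : ℝ) ≤ Real.exp 1 := by
        have := Real.add_one_le_exp (1 : ℝ)
        linarith
      calc (2 : ℝ) ^ ((1 : ℝ) / (2 * k * r) * n)
          ≤ (Real.exp 1) ^ ((1 : ℝ) / (2 * k * r) * n) :=
            Real.rpow_le_rpow (by norm_num) h4 h3
        _ = Real.exp ((1 : ℝ) / (2 * k * r) * n) := Real.exp_one_rpow _
        _ ≤ Real.exp (m / r) := Real.exp_le_exp.mpr h1
    have hS0 : (0 : ℝ) ≤ S := by positivity
    have hwK : (0 : ℝ) < (w : ℝ) ^ K := by
      have : (0 : ℝ) < w := by exact_mod_cast hw1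
      positivity
    calc (S : ℝ) * Real.exp ((C' * n / r : ℕ) / k) * (th k * (C' * n : ℕ)) ^ K
        ≤ (S : ℝ) * Real.exp (2 * C' * (m / r)) *
          ((w : ℝ) ^ K * Real.exp (-((2 * C' + 1) * (m / r)))) := by
          apply mul_le_mul _ hxK (by have := th_pos k; positivity) (by positivity)
          exact mul_le_mul_of_nonneg_left he hS0
      _ < Real.exp (m / r) * Real.exp (2 * C' * (m / r)) *
          ((w : ℝ) ^ K * Real.exp (-((2 * C' + 1) * (m / r)))) := by
          apply mul_lt_mul_of_pos_right _ (by positivity)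
          exact mul_lt_mul_of_pos_right hS (Real.exp_pos _)
      _ = (w : ℝ) ^ K * (Real.exp (m / r) * Real.exp (2 * C' * (m / r)) *
          Real.exp (-((2 * C' + 1) * (m / r)))) := by ring
      _ = (w : ℝ) ^ K := by
          rw [← Real.exp_add, ← Real.exp_add]
          have : (m : ℝ) / r + 2 * C' * (m / r) + -((2 * C' + 1) * (m / r)) = 0 := by ring
          rw [this, Real.exp_zero, mul_one]
  have : Nonempty (Fin m) := ⟨⟨0, hmpos⟩⟩
  obtain ⟨U, ρ, hU1, hlines⟩ := shrink_lines (blk := blk (n := n) hmpos) k hk1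
    (cnt_ge hmpos hkm) φ r (C' * n) hr1 (fun j => (hφ j).trans (by
      rw [hC']; nlinarith)) K w hKw hw1 hmain
  refine ⟨U, ρ, fun j z hz => ?_⟩
  obtain ⟨Hj, hHU, hHc, hα⟩ := hlines j
  obtain ⟨W, hWU, hWc, hW⟩ := hα z
  have hcard : (Hj ∪ W).card < U.card := by
    rw [card_U hmpos U hU1]
    refine (card_union_le _ _).trans_lt ?_
    have h1 : Hj.card ≤ m / q := hHc.trans hsr
    have h2 : m / q * q ≤ m := Nat.div_mul_le_self m q
    rw [hw] at hWc
    rw [hq] at h1 h2 hWc
    omega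
  obtain ⟨v, hvU, hv⟩ := exists_mem_notMem_of_card_lt_card hcard
  rw [mem_union, not_or] at hv
  refine ⟨v, hvU, ?_⟩
  have hne : ∀ u, u ≠ v → Function.update z v (!z v) u = z u := by
    intro u hu
    rw [Function.update_of_ne hu]
  refine hW _ _ ?_ hz ?_ (fun _ _ => rfl) ?_
  · intro u hu
    rw [hne u (fun h => hu (h ▸ hvU))]
    exact hz u hu
  · intro u hu
    exact hne u (fun h => hv.1 (h ▸ hu))
  · intro u hu
    exact hne u (fun h => hv.2 (h ▸ hu))

end H23.Ins
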