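import Pool.Agent.H23R2.Word

/-!
# The Frobenius relation for conjugation cocycles modulo `p`
-/

set_option autoImplicit false
set_option linter.unusedSectionVars false

namespace Pool.Agent.H23R2

open Finset
open scoped Classical

/-- `A` and `B` (coefficient functions of square matrices over a group ring, supported in the
finite set `S`) are inverse to each other -/
structure InvPair {I : Type*} [Fintype I] {Γ : Type*} [Group Γ] {R : Type*} [CommRing R]
    (A B : I → I → Γ → R) (S : Finset Γ) : Prop where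
  ab : ∀ i i' g, ∑ j, ∑ a ∈ S, ∑ b ∈ S, (if a * b = g then A i j a * B j i' b else 0)
    = if i = i' ∧ g = 1 then 1 else 0
  ba : ∀ i i' g, ∑ j, ∑ a ∈ S, ∑ b ∈ S, (if a * b = g then B i j a * A j i' b else 0)
    = if i = i' ∧ g = 1 then 1 else 0

lemma InvPair.symm {I : Type*} [Fintype I] {Γ : Type*} [Group Γ] {R : Type*} [CommRing R]
    {A B : I → I → Γ → R} {S : Finset Γ} (h : InvPair A B S) : InvPair B A S := ⟨h.ba, h.ab⟩

section

variable {I : Type*} [Fintype I] {Γ : Type*} [Group Γ] {p : ℕ} [Fact p.Prime]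
  {M : Type*} [AddCommGroup M] [Module (ZMod p) M]
  {R : Type*} [CommRing R]

/-- pairs of consecutive letters -/
abbrev Y (I : Type*) {Γ : Type*} (S : Finset Γ) := I × I × S × S

variable {S : Finset Γ}

/-- weight -/
def wt (A B : I → I → Γ → R) (o : ZMod p → Y I S) : R :=
  ∏ k, A (o k).1 (o k).2.1 (o k).2.2.1 * B (o k).2.1 (o (k + 1)).1 (o k).2.2.2

/-- first letters -/
def la (o : ZMod p → Y I S) (k : ZMod p) : Γ := (o k).2.2.1
/-- second letters -/
def lb (o : ZMod p → Y I S) (k : ZMod p) : Γ := (o k).2.2.2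

/-- products of the pairs -/
def U (o : ZMod p → Y I S) : ZMod p → Γ := fun k => la o k * lb o k
/-- products across the pairs -/
def V (o : ZMod p → Y I S) : ZMod p → Γ := fun k => lb o k * la o (k + 1)
/-- the target sequence -/
def T (o : ZMod p → Y I S) : ZMod p → I × Γ := fun k => ((o k).1, U o k)

omit [Fintype I] [Fact p.Prime] in
lemma U_shift (c : ZMod p) (o : ZMod p → Y I S) : U (shift c o) = shift c (U o) := rfl

omit [Fintype I] [Fact p.Prime] in
lemma T_shift (c : ZMod p) (o : ZMod p → Y I S) : T (shift c o) = shift c (T o) := rfl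

omit [Fintype I] [Group Γ] in
lemma wt_shift (A B : I → I → Γ → R) (c : ZMod p) (o : ZMod p → Y I S) :
    wt A B (shift c o) = wt A B o := by
  unfold wt
  refine Fintype.prod_equiv (Equiv.addRight c) _ _ ?_
  intro k
  simp only [shift_apply, Equiv.coe_addRight]
  rw [show k + 1 + c = k + c + 1 by ring]

/-- the value of the sum of weights over a fibre described by a family of finite sets -/
lemma sum_wt_pi (A B : I → I → Γ → R) (t : ZMod p → I × Γ) (Ts : ZMod p → Finset (Y I S))
    (hTs : ∀ k, ∀ y ∈ Ts k, y.1 = (t k).1) :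
    ∑ o ∈ Fintype.piFinset Ts, wt A B o =
      ∏ k, ∑ y ∈ Ts k, A y.1 y.2.1 y.2.2.1 * B y.2.1 (t (k + 1)).1 y.2.2.2 := by
  rw [Finset.prod_univ_sum]
  apply Finset.sum_congr rfl
  intro o ho
  rw [Fintype.mem_piFinset] at ho
  unfold wt
  apply Finset.prod_congr rfl
  intro k _
  rw [hTs _ _ (ho (k + 1))]

lemma inner_sum {A B : I → I → Γ → R} (h : InvPair A B S) (t : I × Γ) (i' : I) :
    ∑ y : Y I S with (y.1, (y.2.2.1 : Γ) * (y.2.2.2 : Γ)) = t,
      A y.1 y.2.1 y.2.2.1 * B y.2.1 i' y.2.2.2 = if t.1 = i' ∧ t.2 = 1 then 1 else 0 := by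
  rw [← h.ab t.1 i' t.2, Finset.sum_filter]
  rw [Fintype.sum_prod_type]
  rw [Finset.sum_eq_single t.1]
  · rw [Fintype.sum_prod_type]
    apply Finset.sum_congr rfl
    intro j _
    rw [Fintype.sum_prod_type]
    rw [← Finset.sum_coe_sort S (fun a => ∑ b ∈ S, if a * b = t.2 then
      A t.1 j a * B j i' b else 0)]
    apply Finset.sum_congr rfl
    intro a _
    rw [← Finset.sum_coe_sort S (fun b => if (a : Γ) * b = t.2 then
      A t.1 j a * B j i' b else 0)]
    apply Finset.sum_congr rfl
    intro b _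
    simp only [Prod.ext_iff, true_and]
  · intro i _ hi
    apply Finset.sum_eq_zero
    intro y _
    rw [if_neg]
    intro hh
    exact hi (congrArg Prod.fst hh)
  · intro hh
    exact absurd (Finset.mem_univ _) hh

/-- sum of weights over the fibre of `T` -/
lemma sum_wt_fibre {A B : I → I → Γ → R} (h : InvPair A B S) (t : ZMod p → I × Γ) :
    ∑ o : ZMod p → Y I S with T o = t, wt A B o =
      ∏ k, if (t k).1 = (t (k + 1)).1 ∧ (t k).2 = 1 then 1 else 0 := by
  have h1 := sum_wt_pi A B t
    (fun k => Finset.univ.filter (fun y : Y I S => (y.1, (y.2.2.1 : Γ) * (y.2.2.2 : Γ)) = t k))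
    (by intro k y hy; simp only [Finset.mem_filter, Finset.mem_univ, true_and] at hy
        rw [← hy])
  simp_rw [inner_sum h] at h1
  rw [← h1]
  apply Finset.sum_congr _ (fun _ _ => rfl)
  ext o
  simp only [Finset.mem_filter, Finset.mem_univ, true_and, Fintype.mem_piFinset]
  constructor
  · intro ho k
    rw [← ho]; rfl
  · intro ho
    funext k
    exact ho k

lemma exists_bad (t : ZMod p → I × Γ) (ht : NC t) :
    ∃ k, ¬ ((t k).1 = (t (k + 1)).1 ∧ (t k).2 = 1) := by
  by_contra hne
  push Not at hne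
  obtain ⟨k, hk⟩ := ht
  apply hk
  have h1 : ∀ n : ℕ, (t (n : ZMod p)).1 = (t 0).1 := by
    intro n
    induction n with
    | zero => simp
    | succ n ih => rw [← ih, (hne n).1]; push_cast; rfl
  have h2 := h1 k.val
  rw [ZMod.natCast_zmod_val] at h2
  exact Prod.ext h2 (by rw [(hne k).2, (hne 0).2])

lemma sum_wt_fibre_NC {A B : I → I → Γ → R} (h : InvPair A B S) (t : ZMod p → I × Γ)
    (ht : NC t) : ∑ o : ZMod p → Y I S with T o = t, wt A B o = 0 := by
  rw [sum_wt_fibre h]
  obtain ⟨k, hk⟩ := exists_bad t ht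
  exact Finset.prod_eq_zero (Finset.mem_univ k) (if_neg hk)

/-- the target sequence with a single nontrivial entry -/
def t0 (y : Y I S) : ZMod p → I × Γ := fun k =>
  if k = 0 then (y.1, (y.2.2.1 : Γ) * (y.2.2.2 : Γ)) else (y.1, 1)

lemma sum_wt_head {A B : I → I → Γ → R} (h : InvPair A B S) (y : Y I S)
    (t : ZMod p → I × Γ) (hty : t 0 = (y.1, (y.2.2.1 : Γ) * (y.2.2.2 : Γ))) :
    ∑ o : ZMod p → Y I S with (o 0 = y ∧ T o = t), wt A B o =
      if t = t0 y then A y.1 y.2.1 y.2.2.1 * B y.2.1 y.1 y.2.2.2 else 0 := by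
  have h1 := sum_wt_pi A B t
    (fun k => if k = 0 then {y} else
      Finset.univ.filter (fun y : Y I S => (y.1, (y.2.2.1 : Γ) * (y.2.2.2 : Γ)) = t k))
    (by
      intro k z hz
      by_cases hk : k = 0
      · subst hk
        simp only [if_true, Finset.mem_singleton] at hz
        rw [hz, hty]
      · simp only [if_neg hk, Finset.mem_filter, Finset.mem_univ, true_and] at hz
        rw [← hz])
  have h2 : Finset.univ.filter (fun o : ZMod p → Y I S => o 0 = y ∧ T o = t) =
      Fintype.piFinset (fun k => if k = 0 then {y} else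
      Finset.univ.filter (fun y : Y I S => (y.1, (y.2.2.1 : Γ) * (y.2.2.2 : Γ)) = t k)) := by
    ext o
    simp only [Finset.mem_filter, Finset.mem_univ, true_and, Fintype.mem_piFinset]
    constructor
    · rintro ⟨h0, ho⟩ k
      by_cases hk : k = 0
      · subst hk; simp [h0]
      · rw [if_neg hk]
        simp only [Finset.mem_filter, Finset.mem_univ, true_and]
        rw [← ho]; rfl
    · intro ho
      have h0 : o 0 = y := by simpa using ho 0
      refine ⟨h0, ?_⟩
      funext k
      by_cases hk : k = 0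
      · subst hk
        rw [hty, ← h0]; rfl
      · have := ho k
        rw [if_neg hk] at this
        simp only [Finset.mem_filter, Finset.mem_univ, true_and] at this
        exact this
  rw [h2, h1]
  have h3 : ∀ k : ZMod p, (∑ z ∈ (if k = 0 then ({y} : Finset (Y I S)) else
      Finset.univ.filter (fun y : Y I S => (y.1, (y.2.2.1 : Γ) * (y.2.2.2 : Γ)) = t k)),
      A z.1 z.2.1 z.2.2.1 * B z.2.1 (t (k + 1)).1 z.2.2.2) =
      if k = 0 then A y.1 y.2.1 y.2.2.1 * B y.2.1 (t 1).1 y.2.2.2 else
        (if (t k).1 = (t (k + 1)).1 ∧ (t k).2 = 1 then 1 else 0) := by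
    intro k
    by_cases hk : k = 0
    · subst hk; simp
    · rw [if_neg hk, if_neg hk, inner_sum h]
  simp_rw [h3]
  by_cases ht : t = t0 y
  · rw [if_pos ht, Finset.prod_eq_single 0]
    · rw [if_pos rfl]
      have : (t 1).1 = y.1 := by
        rw [ht]; unfold t0; split_ifs <;> rfl
      rw [this]
    · intro k _ hk
      rw [if_neg hk, if_pos]
      have e1 : (t (k + 1)).1 = y.1 := by
        rw [ht]; unfold t0; split_ifs <;> rfl
      have e2 : t k = (y.1, 1) := by
        rw [ht]; unfold t0; rw [if_neg hk]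
      rw [e1, e2]
      exact ⟨rfl, rfl⟩
    · intro hh; exact absurd (Finset.mem_univ _) hh
  · rw [if_neg ht]
    by_contra hne
    apply ht
    have hall : ∀ k : ZMod p, k ≠ 0 → ((t k).1 = (t (k + 1)).1 ∧ (t k).2 = 1) := by
      intro k hk
      by_contra hc
      apply hne
      apply Finset.prod_eq_zero (Finset.mem_univ k)
      rw [if_neg hk, if_neg hc]
    -- all first coordinates agree with the one at `0`, going downwards from `p`
    have hfst : ∀ n : ℕ, n < p → (t (-(n : ZMod p))).1 = (t 0).1 := by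
      intro n
      induction n with
      | zero => intro _; simp
      | succ n ih =>
        intro hn
        rw [← ih (by omega)]
        have hk : (-((n + 1 : ℕ) : ZMod p)) ≠ 0 := by
          rw [neg_ne_zero]
          intro hc
          rw [ZMod.natCast_eq_zero_iff] at hc
          exact absurd (Nat.le_of_dvd (by omega) hc) (by omega)
        rw [(hall _ hk).1]
        congr 2
        push_cast; ring
    funext k
    unfold t0
    by_cases hk : k = 0
    · subst hk; rw [if_pos rfl, hty]
    · rw [if_neg hk]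
      have e := hfst (-k).val (ZMod.val_lt _)
      rw [ZMod.natCast_zmod_val, neg_neg, hty] at e
      exact Prod.ext e (hall k hk).2

omit [Fintype I] in
lemma W_t0 (y : Y I S) : W (fun k => (t0 (p := p) y k).2) 0 = (y.2.2.1 : Γ) * (y.2.2.2 : Γ) := by
  have h : ∀ m : ℕ, m < p → pr (fun k => (t0 (p := p) y k).2) 0 (m + 1) =
      (y.2.2.1 : Γ) * (y.2.2.2 : Γ) := by
    intro m
    induction m with
    | zero => intro _; simp [pr, t0]
    | succ m ih =>
      intro hm
      rw [pr_succ, ih (by omega)]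
      have hk : (0 + ((m + 1 : ℕ) : ZMod p)) ≠ 0 := by
        rw [zero_add]
        intro hc
        rw [ZMod.natCast_eq_zero_iff] at hc
        exact absurd (Nat.le_of_dvd (by omega) hc) (by omega)
      simp only [t0, if_neg hk, mul_one]
  have hp : 0 < p := (Fact.out : p.Prime).pos
  have := h (p - 1) (by omega)
  rwa [Nat.sub_add_cancel hp] at this

end

section main

variable {I : Type*} [Fintype I] {Γ : Type*} [Group Γ] {p : ℕ} [Fact p.Prime]
  {M : Type*} [AddCommGroup M] [Module (ZMod p) M] {S : Finset Γ}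

/-- the pairing -/
def Dsum (A B : I → I → Γ → ZMod p) (S : Finset Γ) (F : Γ → Γ → M) : M :=
  ∑ y : Y I S, (A y.1 y.2.1 y.2.2.1 * B y.2.1 y.1 y.2.2.2) • F (y.2.2.1 * y.2.2.2) y.2.2.1

/-- the summand -/
def Gf (F : Γ → Γ → M) (o : ZMod p → Y I S) : M := F (W (U o) 0) (la o 0)

lemma total_sum {A B : I → I → Γ → ZMod p} (h : InvPair A B S) (F : Γ → Γ → M) :
    ∑ o : ZMod p → Y I S, wt A B o • Gf F o = Dsum A B S F := by
  unfold Dsum
  rw [← Finset.sum_fiberwise (s := Finset.univ) (g := fun o : ZMod p → Y I S => o 0)]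
  apply Finset.sum_congr rfl
  intro y _
  set s : Finset (ZMod p → Y I S) := Finset.univ.filter (fun o => o 0 = y) with hs
  set tt : Finset (ZMod p → I × Γ) := insert (t0 y) (s.image T) with htt
  rw [← Finset.sum_fiberwise_of_maps_to (s := s) (t := tt) (g := T)
    (fun o ho => Finset.mem_insert_of_mem (Finset.mem_image_of_mem _ ho))]
  have key : ∀ t ∈ tt, ∑ o ∈ s with T o = t, wt A B o • Gf F o =
      (if t = t0 y then A y.1 y.2.1 y.2.2.1 * B y.2.1 y.1 y.2.2.2 else 0) •
        F (W (fun k => (t k).2) 0) (y.2.2.1 : Γ) := by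
    intro t ht
    have hty : t 0 = (y.1, (y.2.2.1 : Γ) * (y.2.2.2 : Γ)) := by
      rw [htt, Finset.mem_insert] at ht
      rcases ht with ht | ht
      · rw [ht]; simp [t0]
      · rw [Finset.mem_image] at ht
        obtain ⟨o, ho, rfl⟩ := ht
        rw [hs, Finset.mem_filter] at ho
        rw [← ho.2]; rfl
    rw [← sum_wt_head h y t hty, Finset.sum_smul]
    rw [hs, Finset.filter_filter]
    apply Finset.sum_congr rfl
    intro o ho
    rw [Finset.mem_filter] at ho
    obtain ⟨_, h0, hT⟩ := ho
    congr 1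
    unfold Gf
    rw [← hT]
    congr 1
    simp [la, h0]
  rw [Finset.sum_congr rfl key]
  rw [Finset.sum_eq_single_of_mem (t0 y) (Finset.mem_insert_self _ _)]
  · rw [if_pos rfl, W_t0]
  · intro t _ ht
    rw [if_neg ht, zero_smul]

lemma NC_of_T (o : ZMod p → Y I S) (h : NC (T o)) : NC o := by
  by_contra hc
  rw [not_NC_iff] at hc
  obtain ⟨k, hk⟩ := h
  apply hk
  have : T o k = T o 0 := by
    simp only [T, U, la, lb, hc k]
  exact this

lemma NC_T_of_U (o : ZMod p → Y I S) (h : NC (U o)) : NC (T o) := by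
  obtain ⟨k, hk⟩ := h
  exact ⟨k, fun hh => hk (congrArg Prod.snd hh)⟩

/-- the sum over orbits of the contributions of the target sequences vanishes -/
lemma sum_PsiU {A B : I → I → Γ → ZMod p} (h : InvPair A B S) (hp : p ≠ 2)
    {F : Γ → Γ → M} (hF : IsCoc F) (hb : ∀ w, F w w = 0)
    (l : (ZMod p → Y I S) → ZMod p) (hl : ∀ o, NC o → ∀ c, l (shift c o) = l o + c) :
    ∑ o : ZMod p → Y I S with (NC o ∧ l o = 0), wt A B o • Psi F (U o) = 0 := by
  obtain ⟨κ, hκ⟩ := exists_phase (p := p) (I × Γ)
  have h1 : ∑ o : ZMod p → Y I S with (NC o ∧ l o = 0), wt A B o • Psi F (U o) =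
      ∑ o : ZMod p → Y I S with (NC (T o) ∧ l o = 0), wt A B o • Psi F (U o) := by
    symm
    apply Finset.sum_subset
    · intro o ho
      simp only [Finset.mem_filter, Finset.mem_univ, true_and] at ho ⊢
      exact ⟨NC_of_T o ho.1, ho.2⟩
    · intro o ho ho'
      simp only [Finset.mem_filter, Finset.mem_univ, true_and, not_and] at ho ho'
      rw [Psi_const hp F (U o), smul_zero]
      intro hU
      exact ho' (NC_T_of_U o hU) ho.2
  rw [h1]
  rw [section_change (fun o : ZMod p → Y I S => NC (T o))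
    (fun o ho c => by rw [T_shift]; exact NC_shift_of c _ ho) l (fun o => κ (T o))
    (fun o ho c => hl o (NC_of_T o ho) c)
    (fun o ho c => by rw [T_shift]; exact hκ _ ho c)
    (fun o => wt A B o • Psi F (U o))
    (fun o _ c => by rw [wt_shift, U_shift, Psi_shift hF hb])]
  set s : Finset (ZMod p → Y I S) := Finset.univ.filter (fun o => NC (T o) ∧ κ (T o) = 0) with hs
  rw [← Finset.sum_fiberwise_of_maps_to (s := s) (t := s.image T) (g := T)
    (fun o ho => Finset.mem_image_of_mem _ ho)]
  apply Finset.sum_eq_zero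
  intro t ht
  rw [Finset.mem_image] at ht
  obtain ⟨o', ho', rfl⟩ := ht
  rw [hs, Finset.mem_filter] at ho'
  have h2 : ∑ o ∈ s with T o = T o', wt A B o • Psi F (U o) =
      (∑ o : ZMod p → Y I S with T o = T o', wt A B o) • Psi F (U o') := by
    rw [Finset.sum_smul]
    rw [hs, Finset.filter_filter]
    apply Finset.sum_congr
    · ext o
      simp only [Finset.mem_filter, Finset.mem_univ, true_and]
      constructor
      · exact fun hh => hh.2
      · intro hh
        rw [hh]; exact ⟨ho'.2, rfl⟩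
    · intro o ho
      rw [Finset.mem_filter] at ho
      have : U o = U o' := by
        funext k
        exact congrArg Prod.snd (congrFun ho.2 k)
      rw [this]
  rw [h2, sum_wt_fibre_NC h _ ho'.2.1, zero_smul]

/-- exchange the roles of the two matrices -/
def swp (o : ZMod p → Y I S) : ZMod p → Y I S := fun k =>
  ((o k).2.1, (o (k + 1)).1, (o k).2.2.2, (o (k + 1)).2.2.1)

/-- the inverse exchange -/
def swpi (o : ZMod p → Y I S) : ZMod p → Y I S := fun k =>
  ((o (k - 1)).2.1, (o k).1, (o (k - 1)).2.2.2, (o k).2.2.1)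

lemma swpi_swp (o : ZMod p → Y I S) : swpi (swp o) = o := by
  funext k
  simp [swpi, swp]

lemma swp_swpi (o : ZMod p → Y I S) : swp (swpi o) = o := by
  funext k
  simp [swpi, swp]

lemma swp_shift (c : ZMod p) (o : ZMod p → Y I S) : swp (shift c o) = shift c (swp o) := by
  funext k
  simp only [swp, shift_apply]
  rw [show k + 1 + c = k + c + 1 by ring]

lemma swpi_shift (c : ZMod p) (o : ZMod p → Y I S) : swpi (shift c o) = shift c (swpi o) := by
  rw [← swpi_swp (shift c (swpi o)), swp_shift, swp_swpi]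

lemma NC_swp (o : ZMod p → Y I S) : NC (swp o) ↔ NC o := by
  have h1 : ∀ o : ZMod p → Y I S, ¬ NC o → ¬ NC (swp o) := by
    intro o ho
    rw [not_NC_iff] at ho ⊢
    intro k
    simp only [swp]
    rw [ho k, ho (k + 1), ho (0 + 1)]
  have h2 : ∀ o : ZMod p → Y I S, ¬ NC o → ¬ NC (swpi o) := by
    intro o ho
    rw [not_NC_iff] at ho ⊢
    intro k
    simp only [swpi]
    rw [ho k, ho (k - 1), ho (0 - 1)]
  constructor
  · intro h; by_contra hc; exact h1 o hc h
  · intro h; by_contra hc
    have := h2 _ hc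
    rw [swpi_swp] at this
    exact this h

lemma wt_swp (A B : I → I → Γ → ZMod p) (o : ZMod p → Y I S) :
    wt B A (swp o) = wt A B o := by
  unfold wt
  simp only [swp]
  rw [Finset.prod_mul_distrib, Finset.prod_mul_distrib, mul_comm]
  congr 1
  refine Fintype.prod_equiv (Equiv.addRight 1) _ _ ?_
  intro k
  simp

lemma U_swp (o : ZMod p → Y I S) : U (swp o) = V o := rfl

lemma sum_PsiV {A B : I → I → Γ → ZMod p} (h : InvPair A B S) (hp : p ≠ 2)
    {F : Γ → Γ → M} (hF : IsCoc F) (hb : ∀ w, F w w = 0)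
    (l : (ZMod p → Y I S) → ZMod p) (hl : ∀ o, NC o → ∀ c, l (shift c o) = l o + c) :
    ∑ o : ZMod p → Y I S with (NC o ∧ l o = 0), wt A B o • Psi F (V o) = 0 := by
  rw [← sum_PsiU h.symm hp hF hb (fun o => l (swpi o)) (by
    intro o ho c
    show l (swpi (shift c o)) = l (swpi o) + c
    rw [swpi_shift]
    apply hl
    rw [← NC_swp, swp_swpi]; exact ho)]
  refine Finset.sum_nbij' swp swpi ?_ ?_ ?_ ?_ ?_
  · intro o ho
    simp only [Finset.mem_filter, Finset.mem_univ, true_and] at ho ⊢
    rw [NC_swp, swpi_swp]; exact ho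
  · intro o ho
    simp only [Finset.mem_filter, Finset.mem_univ, true_and] at ho ⊢
    rw [← NC_swp, swp_swpi]; exact ho
  · intro o _; exact swpi_swp o
  · intro o _; exact swp_swpi o
  · intro o _
    rw [wt_swp, U_swp]

/-- **The Frobenius relation** -/
theorem frobenius_relation {A B : I → I → Γ → ZMod p} (h : InvPair A B S) (hp : p ≠ 2)
    {F : Γ → Γ → M} (hF : IsCoc F) (hb : ∀ w, F w w = 0) :
    Dsum A B S F = Dsum A B S (fun w x => F (w ^ p) x) := by
  rw [← total_sum h F]
  rw [← Finset.sum_filter_add_sum_filter_not (s := Finset.univ)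
    (p := fun o : ZMod p → Y I S => NC o)]
  obtain ⟨l, hl⟩ := exists_phase (p := p) (Y I S)
  have h1 : ∑ o : ZMod p → Y I S with NC o, wt A B o • Gf F o = 0 := by
    rw [sum_orbit (fun o => NC o) (fun o ho c => NC_shift_of c o ho) l hl]
    have h2 : ∀ o : ZMod p → Y I S, ∑ c : ZMod p, wt A B (shift c o) • Gf F (shift c o) =
        wt A B o • Psi F (U o) - wt A B o • Psi F (V o) := by
      intro o
      simp_rw [wt_shift]
      rw [← Finset.smul_sum, ← smul_sub]
      congr 1
      rw [show U o = fun k => la o k * lb o k from rfl,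
        show V o = fun k => lb o k * la o (k + 1) from rfl, ← sum_coc hF]
      apply Finset.sum_congr rfl
      intro c _
      unfold Gf
      rw [U_shift, W_shift, zero_add]
      congr 1
      simp [la]
    simp_rw [h2]
    rw [Finset.sum_sub_distrib, sum_PsiU h hp hF hb l hl, sum_PsiV h hp hF hb l hl, sub_zero]
  rw [h1, zero_add]
  unfold Dsum
  symm
  refine Finset.sum_bij (fun y _ => (fun _ => y : ZMod p → Y I S)) ?_ ?_ ?_ ?_
  · intro y _
    simp only [Finset.mem_filter, Finset.mem_univ, true_and]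
    rw [not_NC_iff]
    intro k; rfl
  · intro y _ y' _ hyy
    exact congrFun hyy 0
  · intro o ho
    simp only [Finset.mem_filter, Finset.mem_univ, true_and] at ho
    rw [not_NC_iff] at ho
    exact ⟨o 0, Finset.mem_univ _, by funext k; exact (ho k).symm⟩
  · intro y _
    have e1 : wt A B (fun _ => y : ZMod p → Y I S) =
        A y.1 y.2.1 y.2.2.1 * B y.2.1 y.1 y.2.2.2 := by
      unfold wt
      rw [Finset.prod_const, Finset.card_univ, ZMod.card, ZMod.pow_card]
    rw [e1]
    congr 1
    unfold Gf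
    have e2 : W (U (fun _ => y : ZMod p → Y I S)) 0 = ((y.2.2.1 : Γ) * (y.2.2.2 : Γ)) ^ p := by
      have : U (fun _ => y : ZMod p → Y I S) = fun _ => (y.2.2.1 : Γ) * (y.2.2.2 : Γ) := rfl
      rw [this]
      exact pr_const _ _ _
    rw [e2]
    rfl

end main

end Pool.Agent.H23R2
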