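import Mathlib

/-!
# Cyclic sequences indexed by `ZMod p`

Rotation of cyclic sequences, phases (equivariant maps to `ZMod p`) on non-constant
sequences, and two summation lemmas over rotation orbits.
-/

set_option autoImplicit false

namespace Pool.Agent.H23R2

open Finset

section Shift

variable {p : ℕ} {X : Type*}

/-- rotation of a cyclic sequence -/
def shift (c : ZMod p) (g : ZMod p → X) : ZMod p → X := fun k => g (k + c)

@[simp] lemma shift_apply (c : ZMod p) (g : ZMod p → X) (k : ZMod p) :
    shift c g k = g (k + c) := rfl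

lemma shift_shift (c d : ZMod p) (g : ZMod p → X) :
    shift c (shift d g) = shift (c + d) g := by
  funext k; simp [shift, add_assoc]

@[simp] lemma shift_zero (g : ZMod p → X) : shift 0 g = g := by
  funext k; simp [shift]

lemma shift_neg_shift (c : ZMod p) (g : ZMod p → X) : shift (-c) (shift c g) = g := by
  rw [shift_shift]; simp

lemma shift_shift_neg (c : ZMod p) (g : ZMod p → X) : shift c (shift (-c) g) = g := by
  rw [shift_shift]; simp

/-- the cyclic sequence is not constant -/
def NC (g : ZMod p → X) : Prop := ∃ k, g k ≠ g 0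

lemma not_NC_iff (g : ZMod p → X) : ¬ NC g ↔ ∀ k, g k = g 0 := by
  simp [NC]

lemma NC_shift_of (c : ZMod p) (g : ZMod p → X) (h : NC g) : NC (shift c g) := by
  by_contra hc
  rw [not_NC_iff] at hc
  obtain ⟨k, hk⟩ := h
  apply hk
  have h1 := hc (k - c)
  have h2 := hc (0 - c)
  simp [shift] at h1 h2
  rw [h1, h2]

lemma NC_shift (c : ZMod p) (g : ZMod p → X) : NC (shift c g) ↔ NC g := by
  constructor
  · intro h
    have := NC_shift_of (-c) _ h
    rwa [shift_neg_shift] at this
  · exact NC_shift_of c g

lemma shift_free [Fact p.Prime] {g : ZMod p → X} (hg : NC g) {c : ZMod p}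
    (h : shift c g = g) : c = 0 := by
  by_contra hc
  obtain ⟨k, hk⟩ := hg
  apply hk
  have h1 : ∀ n : ℕ, g ((n : ZMod p) * c) = g 0 := by
    intro n
    induction n with
    | zero => simp
    | succ n ih =>
      have := congrFun h ((n : ZMod p) * c)
      simp only [shift_apply] at this
      rw [← ih, ← this]
      congr 1
      push_cast; ring
  have h2 := h1 (k * c⁻¹).val
  rw [ZMod.natCast_zmod_val] at h2
  rwa [mul_assoc, inv_mul_cancel₀ hc, mul_one] at h2

lemma exists_phase [Fact p.Prime] (X : Type*) :
    ∃ κ : (ZMod p → X) → ZMod p, ∀ g, NC g → ∀ c, κ (shift c g) = κ g + c := by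
  classical
  let r : Setoid (ZMod p → X) :=
    { r := fun g g' => ∃ c, g' = shift c g
      iseqv :=
        { refl := fun g => ⟨0, by simp⟩
          symm := by
            rintro g g' ⟨c, rfl⟩
            exact ⟨-c, by rw [shift_neg_shift]⟩
          trans := by
            rintro g g' g'' ⟨c, rfl⟩ ⟨d, rfl⟩
            exact ⟨d + c, by rw [shift_shift]⟩ } }
  have hrep : ∀ g : ZMod p → X, ∃ c, g = shift c (Quotient.out (Quotient.mk r g)) := by
    intro g
    exact Quotient.exact (Quotient.out_eq (Quotient.mk r g))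
  choose κ hκ using hrep
  refine ⟨κ, ?_⟩
  intro g hg c
  have hq : Quotient.mk r (shift c g) = Quotient.mk r g :=
    (Quotient.sound (s := r) ⟨c, rfl⟩).symm
  have h1 := hκ (shift c g)
  rw [hq] at h1
  have h2 := hκ g
  set R := Quotient.out (Quotient.mk r g) with hR
  have hRNC : NC R := by
    rw [h2] at hg
    exact (NC_shift _ _).1 hg
  have h3 : shift c g = shift (c + κ g) R := by
    conv_lhs => rw [h2]
    rw [shift_shift]
  have h4 : shift (κ (shift c g)) R = shift (c + κ g) R := by rw [← h1, h3]
  have h5 : shift (κ (shift c g) - (c + κ g)) R = R := by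
    have := congrArg (shift (-(c + κ g))) h4
    rw [shift_shift, shift_neg_shift] at this
    rw [show κ (shift c g) - (c + κ g) = -(c + κ g) + κ (shift c g) by ring]
    exact this
  have h6 := shift_free hRNC h5
  have : κ (shift c g) = c + κ g := sub_eq_zero.1 h6
  rw [this, add_comm]

end Shift

section Sums

open Classical

variable {p : ℕ} [Fact p.Prime] {X : Type*} [Fintype X] {M : Type*} [AddCommGroup M]

lemma sum_orbit (P : (ZMod p → X) → Prop) (hP : ∀ o, P o → ∀ c, P (shift c o))
    (l : (ZMod p → X) → ZMod p) (hl : ∀ o, P o → ∀ c, l (shift c o) = l o + c)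
    (G : (ZMod p → X) → M) :
    ∑ o with P o, G o = ∑ o with (P o ∧ l o = 0), ∑ c : ZMod p, G (shift c o) := by
  rw [Finset.sum_comm]
  have h : ∀ c : ZMod p, ∑ o with (P o ∧ l o = 0), G (shift c o)
      = ∑ o with (P o ∧ l o = c), G o := by
    intro c
    refine Finset.sum_nbij' (fun o => shift c o) (fun o => shift (-c) o) ?_ ?_ ?_ ?_ ?_
    · intro o ho
      simp only [Finset.mem_filter, Finset.mem_univ, true_and] at ho ⊢
      exact ⟨hP o ho.1 c, by rw [hl o ho.1, ho.2, zero_add]⟩
    · intro o ho
      simp only [Finset.mem_filter, Finset.mem_univ, true_and] at ho ⊢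
      exact ⟨hP o ho.1 _, by rw [hl o ho.1, ho.2]; ring⟩
    · intro o _
      exact shift_neg_shift c o
    · intro o _
      exact shift_shift_neg c o
    · intro o _
      rfl
  simp_rw [h]
  rw [← Finset.sum_fiberwise (s := Finset.univ.filter P) (g := l)]
  apply Finset.sum_congr rfl
  intro c _
  apply Finset.sum_congr _ (fun _ _ => rfl)
  ext o
  simp

lemma section_change (P : (ZMod p → X) → Prop) (hP : ∀ o, P o → ∀ c, P (shift c o))
    (l κ : (ZMod p → X) → ZMod p) (hl : ∀ o, P o → ∀ c, l (shift c o) = l o + c)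
    (hκ : ∀ o, P o → ∀ c, κ (shift c o) = κ o + c)
    (H : (ZMod p → X) → M) (hH : ∀ o, P o → ∀ c, H (shift c o) = H o) :
    ∑ o with (P o ∧ l o = 0), H o = ∑ o with (P o ∧ κ o = 0), H o := by
  refine Finset.sum_nbij' (fun o => shift (-κ o) o) (fun o => shift (-l o) o) ?_ ?_ ?_ ?_ ?_
  · intro o ho
    simp only [Finset.mem_filter, Finset.mem_univ, true_and] at ho ⊢
    exact ⟨hP o ho.1 _, by rw [hκ o ho.1]; ring⟩
  · intro o ho
    simp only [Finset.mem_filter, Finset.mem_univ, true_and] at ho ⊢
    exact ⟨hP o ho.1 _, by rw [hl o ho.1]; ring⟩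
  · intro o ho
    simp only [Finset.mem_filter, Finset.mem_univ, true_and] at ho
    show shift (-l (shift (-κ o) o)) (shift (-κ o) o) = o
    rw [hl o ho.1, ho.2, shift_shift]
    simp
  · intro o ho
    simp only [Finset.mem_filter, Finset.mem_univ, true_and] at ho
    show shift (-κ (shift (-l o) o)) (shift (-l o) o) = o
    rw [hκ o ho.1, ho.2, shift_shift]
    simp
  · intro o ho
    simp only [Finset.mem_filter, Finset.mem_univ, true_and] at ho
    exact (hH o ho.1 _).symm

end Sums

end Pool.Agent.H23R2
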