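import Pool.Agent.H23R2.Shift

/-!
# Ordered products of cyclic sequences and conjugation cocycles
-/

set_option autoImplicit false

namespace Pool.Agent.H23R2

open Finset

section Word

variable {p : ℕ} {Γ : Type*} [Group Γ]

/-- the ordered product `g k * g (k+1) * ... * g (k+m-1)` -/
def pr (g : ZMod p → Γ) (k : ZMod p) : ℕ → Γ
  | 0 => 1
  | (m + 1) => pr g k m * g (k + m)

lemma pr_zero (g : ZMod p → Γ) (k : ZMod p) : pr g k 0 = 1 := rfl
lemma pr_succ (g : ZMod p → Γ) (k : ZMod p) (m : ℕ) :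
    pr g k (m + 1) = pr g k m * g (k + m) := rfl

lemma pr_succ' (g : ZMod p → Γ) (k : ZMod p) (m : ℕ) :
    pr g k (m + 1) = g k * pr g (k + 1) m := by
  induction m with
  | zero => simp [pr]
  | succ m ih =>
    rw [pr_succ, ih, pr_succ, mul_assoc]
    congr 2
    push_cast
    congr 1
    ring

/-- full turn product starting at `k` -/
def W (g : ZMod p → Γ) (k : ZMod p) : Γ := pr g k p

lemma W_succ (g : ZMod p → Γ) (k : ZMod p) : W g (k + 1) = (g k)⁻¹ * W g k * g k := by
  have h1 : pr g k (p + 1) = W g k * g k := by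
    rw [pr_succ]; simp [W]
  have h2 : pr g k (p + 1) = g k * W g (k + 1) := by
    rw [pr_succ']; rfl
  rw [mul_assoc, ← h1, h2, inv_mul_cancel_left]

lemma pr_interleave (a b : ZMod p → Γ) (k : ZMod p) (m : ℕ) :
    a k * pr (fun k => b k * a (k + 1)) k m = pr (fun k => a k * b k) k m * a (k + m) := by
  induction m with
  | zero => simp [pr]
  | succ m ih =>
    rw [pr_succ, ← mul_assoc, ih, pr_succ]
    simp only [mul_assoc]
    congr 3
    push_cast
    congr 1
    ring

lemma W_interleave (a b : ZMod p → Γ) (k : ZMod p) :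
    W (fun k => b k * a (k + 1)) k = (a k)⁻¹ * W (fun k => a k * b k) k * a k := by
  have h := pr_interleave a b k p
  simp only [CharP.cast_eq_zero, add_zero] at h
  rw [mul_assoc]
  unfold W
  rw [← h, inv_mul_cancel_left]

lemma pr_const (x : Γ) (k : ZMod p) (m : ℕ) : pr (fun _ => x) k m = x ^ m := by
  induction m with
  | zero => simp [pr]
  | succ m ih => rw [pr_succ, ih, pow_succ]

lemma pr_shift (c : ZMod p) (g : ZMod p → Γ) (k : ZMod p) (m : ℕ) :
    pr (shift c g) k m = pr g (k + c) m := by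
  induction m with
  | zero => simp [pr]
  | succ m ih =>
    rw [pr_succ, ih, pr_succ]
    simp only [shift_apply]
    congr 2
    ring

lemma W_shift (c : ZMod p) (g : ZMod p → Γ) (k : ZMod p) :
    W (shift c g) k = W g (k + c) := pr_shift c g k p

lemma W_add (g : ZMod p → Γ) (k : ZMod p) (m : ℕ) :
    (pr g k m)⁻¹ * W g k * pr g k m = W g (k + m) := by
  induction m with
  | zero => simp [pr]
  | succ m ih =>
    rw [pr_succ]
    have : k + ((m + 1 : ℕ) : ZMod p) = (k + m) + 1 := by push_cast; ring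
    rw [this, W_succ, ← ih]
    group

end Word

section Cocycle

variable {Γ : Type*} [Group Γ] {M : Type*} [AddCommGroup M]

/-- `F w x` is the value on the arrow `w → x⁻¹ w x` of the conjugation groupoid -/
def IsCoc (F : Γ → Γ → M) : Prop := ∀ w x y, F w (x * y) = F w x + F (x⁻¹ * w * x) y

lemma IsCoc.one {F : Γ → Γ → M} (hF : IsCoc F) (w : Γ) : F w 1 = 0 := by
  have h := hF w 1 1
  simp at h
  exact h

lemma IsCoc.pow {F : Γ → Γ → M} (hF : IsCoc F) (h : Γ) (m : ℕ) : F h (h ^ m) = m • F h h := by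
  induction m with
  | zero => simp [hF.one]
  | succ m ih =>
    rw [pow_succ, hF, ih]
    have : (h ^ m)⁻¹ * h * h ^ m = h := by
      rw [mul_assoc, (Commute.refl h).pow_right m |>.eq, inv_mul_cancel_left]
    rw [this, add_smul, one_smul]

variable {p : ℕ}

/-- local value -/
def phi (F : Γ → Γ → M) (g : ZMod p → Γ) (k : ZMod p) : M := F (W g k) (g k)

omit [AddCommGroup M] in
lemma phi_shift (F : Γ → Γ → M) (c : ZMod p) (g : ZMod p → Γ) (k : ZMod p) :
    phi F (shift c g) k = phi F g (k + c) := by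
  simp [phi, W_shift]

lemma coc_pr {F : Γ → Γ → M} (hF : IsCoc F) (g : ZMod p → Γ) (k : ZMod p) (m : ℕ) :
    F (W g k) (pr g k m) = ∑ l ∈ range m, phi F g (k + l) := by
  induction m with
  | zero => simp [pr, hF.one]
  | succ m ih =>
    rw [pr_succ, hF, ih, W_add, Finset.sum_range_succ]
    rfl

lemma sum_range_zmod [NeZero p] (h : ZMod p → M) :
    ∑ l ∈ range p, h (l : ZMod p) = ∑ x : ZMod p, h x := by
  refine Finset.sum_bij (fun l _ => (l : ZMod p)) ?_ ?_ ?_ ?_
  · intro a _; simp
  · intro a ha b hb hab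
    rw [ZMod.natCast_eq_natCast_iff'] at hab
    rw [Finset.mem_range] at ha hb
    rwa [Nat.mod_eq_of_lt ha, Nat.mod_eq_of_lt hb] at hab
  · intro b _
    exact ⟨b.val, by simpa using ZMod.val_lt b, by simp⟩
  · intro a _; rfl

lemma sum_phi [NeZero p] {F : Γ → Γ → M} (hF : IsCoc F) (g : ZMod p → Γ) :
    ∑ k : ZMod p, phi F g k = F (W g 0) (W g 0) := by
  have h := coc_pr hF g 0 p
  simp only [zero_add] at h
  rw [sum_range_zmod] at h
  exact h.symm

/-- the relation between consecutive values -/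
lemma coc_step {F : Γ → Γ → M} (hF : IsCoc F) (a b : ZMod p → Γ) (k : ZMod p) :
    F (W (fun k => a k * b k) (k + 1)) (a (k + 1)) =
      F (W (fun k => a k * b k) k) (a k)
        + phi F (fun k => b k * a (k + 1)) k - phi F (fun k => a k * b k) k := by
  have h1 := hF (W (fun k => a k * b k) k) (a k * b k) (a (k + 1))
  have h2 := hF (W (fun k => a k * b k) k) (a k) (b k * a (k + 1))
  rw [← mul_assoc] at h2
  rw [h1] at h2
  have h3 : W (fun k => a k * b k) (k + 1) =
      (a k * b k)⁻¹ * W (fun k => a k * b k) k * (a k * b k) := W_succ _ k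
  rw [← h3] at h2
  have h4 := W_interleave a b k
  rw [← h4] at h2
  simp only [phi]
  rw [← sub_eq_zero] at h2 ⊢
  rw [← h2]
  abel

end Cocycle

section Psi

variable {Γ : Type*} [Group Γ] {p : ℕ} [Fact p.Prime] {M : Type*} [AddCommGroup M]
  [Module (ZMod p) M]

/-- weighted sum of local values -/
def Psi (F : Γ → Γ → M) (g : ZMod p → Γ) : M := ∑ k : ZMod p, k • phi F g k

lemma Psi_shift {F : Γ → Γ → M} (hF : IsCoc F) (hb : ∀ w, F w w = 0) (c : ZMod p)
    (g : ZMod p → Γ) : Psi F (shift c g) = Psi F g := by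
  unfold Psi
  simp_rw [phi_shift]
  have h : ∑ k : ZMod p, k • phi F g (k + c) = ∑ k : ZMod p, (k - c) • phi F g k := by
    refine Fintype.sum_equiv (Equiv.addRight c) _ _ ?_
    intro k
    simp
  rw [h]
  simp_rw [sub_smul]
  rw [Finset.sum_sub_distrib, ← Finset.smul_sum, sum_phi hF, hb, smul_zero, sub_zero]

lemma sum_zmod_eq_zero (hp : p ≠ 2) : ∑ x : ZMod p, x = 0 := by
  have hp' : 2 < p := lt_of_le_of_ne (Fact.out : p.Prime).two_le (Ne.symm hp)
  have := FiniteField.sum_pow_lt_card_sub_one (ZMod p) 1 (by rw [ZMod.card]; omega)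
  simpa using this

lemma Psi_const (hp : p ≠ 2) (F : Γ → Γ → M) (g : ZMod p → Γ) (hg : ¬ NC g) : Psi F g = 0 := by
  rw [not_NC_iff] at hg
  have hg' : g = fun _ => g 0 := funext hg
  unfold Psi
  have h : ∀ k : ZMod p, phi F g k = F (g 0 ^ p) (g 0) := by
    intro k
    rw [hg']
    simp [phi, W, pr_const]
  simp_rw [h]
  rw [← Finset.sum_smul, sum_zmod_eq_zero hp, zero_smul]

lemma sum_coc {F : Γ → Γ → M} (hF : IsCoc F) (a b : ZMod p → Γ) :
    ∑ k : ZMod p, F (W (fun k => a k * b k) k) (a k) =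
      Psi F (fun k => a k * b k) - Psi F (fun k => b k * a (k + 1)) := by
  set x : ZMod p → M := fun k => F (W (fun k => a k * b k) k) (a k) with hx
  have hstep : ∀ k, x (k + 1) = x k + phi F (fun k => b k * a (k + 1)) k
      - phi F (fun k => a k * b k) k := fun k => coc_step hF a b k
  have h1 : ∑ k : ZMod p, k • x (k + 1) = ∑ k : ZMod p, (k - 1) • x k := by
    refine Fintype.sum_equiv (Equiv.addRight 1) _ _ ?_
    intro k
    simp
  have h2 : ∑ k : ZMod p, x k = ∑ k : ZMod p, k • x k - ∑ k : ZMod p, k • x (k + 1) := by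
    rw [h1, ← Finset.sum_sub_distrib]
    apply Finset.sum_congr rfl
    intro k _
    rw [← sub_smul]
    simp
  rw [h2, ← Finset.sum_sub_distrib]
  unfold Psi
  rw [← Finset.sum_sub_distrib]
  apply Finset.sum_congr rfl
  intro k _
  rw [hstep, ← smul_sub, ← smul_sub]
  congr 1
  abel

end Psi

end Pool.Agent.H23R2
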